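import Pool.Agent.H643R2.BX.Main

/-! # Products of code words with values in a group; expressions with bifix stars -/

namespace Pool.Agent.H643R2.BX

open Pool.Agent.H643R2.SH

/-! ### languages denoted by expressions with bifix stars -/

variable {α : Type}

/-- `L` is denoted by an expression in which the star is only applied to bifix codes -/
def Ex (L : Language α) : Prop := ∃ E : GRE α, BifixStars E ∧ E.lang = L

theorem Ex.zero : Ex (0 : Language α) := ⟨.zero, trivial, rfl⟩

theorem Ex.one : Ex (1 : Language α) := ⟨.one, trivial, rfl⟩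

theorem Ex.char (a : α) : Ex ({[a]} : Language α) := ⟨.char a, trivial, rfl⟩

theorem Ex.sup {L K : Language α} (hL : Ex L) (hK : Ex K) : Ex (L ⊔ K) := by
  obtain ⟨E, h1, h2⟩ := hL
  obtain ⟨F, h3, h4⟩ := hK
  exact ⟨.union E F, ⟨h1, h3⟩, by simp [GRE.lang, h2, h4]⟩

theorem Ex.mul {L K : Language α} (hL : Ex L) (hK : Ex K) : Ex (L * K) := by
  obtain ⟨E, h1, h2⟩ := hL
  obtain ⟨F, h3, h4⟩ := hK
  exact ⟨.cat E F, ⟨h1, h3⟩, by simp [GRE.lang, h2, h4]⟩

theorem Ex.star {L : Language α} (hL : Ex L) (hb : IsBifix L) : Ex (KStar.kstar L) := by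
  obtain ⟨E, h1, h2⟩ := hL
  exact ⟨.star E, ⟨h1, by rw [h2]; exact hb⟩, by simp [GRE.lang, h2]⟩

theorem Ex.biUnion {ι : Type} (s : Finset ι) (L : ι → Language α)
    (h : ∀ i ∈ s, Ex (L i)) : Ex ({x | ∃ i ∈ s, x ∈ L i} : Language α) := by
  classical
  induction s using Finset.induction_on with
  | empty =>
    have : ({x | ∃ i ∈ (∅ : Finset ι), x ∈ L i} : Language α) = (0 : Language α) := by
      ext x
      constructor
      · rintro ⟨i, hi, _⟩
        exact absurd hi (Finset.notMem_empty i)
      · intro h
        exact absurd h (Language.notMem_zero x)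
    rw [this]
    exact Ex.zero
  | insert i s his ih =>
    have : ({x | ∃ j ∈ insert i s, x ∈ L j} : Language α) =
        L i ⊔ ({x | ∃ j ∈ s, x ∈ L j} : Language α) := by
      ext x
      constructor
      · rintro ⟨j, hj, hx⟩
        rcases Finset.mem_insert.1 hj with rfl | hj
        · exact Or.inl hx
        · exact Or.inr ⟨j, hj, hx⟩
      · rintro (hx | ⟨j, hj, hx⟩)
        · exact ⟨i, Finset.mem_insert_self _ _, hx⟩
        · exact ⟨j, Finset.mem_insert_of_mem hj, hx⟩
    rw [this]
    exact (h i (Finset.mem_insert_self _ _)).sup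
      (ih (fun j hj => h j (Finset.mem_insert_of_mem hj)))

theorem Ex.isRegular {L : Language α} (h : Ex L) : L.IsRegular := by
  obtain ⟨E, _, rfl⟩ := h
  exact (GRE.rFin E).isRegular

/-! ### products of blocks -/

/-- words which are products of blocks, with the product of the values of the blocks -/
inductive Gen {G : Type} [Group G] (B : List α → G → Prop) : List α → G → Prop
  | nil : Gen B [] 1
  | cons {w w' : List α} {g g' : G} (h : B w g) (h' : Gen B w' g') : Gen B (w ++ w') (g * g')

/-- the blocks form a bifix code with unique values -/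
structure Code {G : Type} [Group G] (B : List α → G → Prop) : Prop where
  ne : ∀ w g, B w g → w ≠ []
  pfx : ∀ u v g g', B u g → B (u ++ v) g' → v = []
  fn : ∀ w g g', B w g → B w g' → g = g'
  cut : ∀ u v g g', Gen B (u ++ v) g → Gen B v g' → ∃ g'', Gen B u g''

variable {G : Type} [Group G] {B : List α → G → Prop}

theorem Gen.base {w : List α} {g : G} (h : B w g) : Gen B w g := by
  have := Gen.cons h (Gen.nil (B := B))
  simpa using this

theorem Gen.append {u v : List α} {g h : G} (hu : Gen B u g) (hv : Gen B v h) :
    Gen B (u ++ v) (g * h) := by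
  induction hu with
  | nil => simpa using hv
  | cons h1 h2 ih =>
    rw [List.append_assoc, mul_assoc]
    exact Gen.cons h1 ih

theorem Gen.inv {x : List α} {g : G} (h : Gen B x g) :
    (x = [] ∧ g = 1) ∨ ∃ w w' g1 g2, x = w ++ w' ∧ g = g1 * g2 ∧ B w g1 ∧ Gen B w' g2 := by
  cases h with
  | nil => exact Or.inl ⟨rfl, rfl⟩
  | cons h h' => exact Or.inr ⟨_, _, _, _, rfl, rfl, h, h'⟩

/-- comparable blocks are equal -/
theorem Code.cmp (hB : Code B) {u u' x x' : List α} {g g' : G} (h : B u g) (h' : B u' g')
    (e : u ++ x = u' ++ x') : u = u' ∧ x = x' ∧ g = g' := by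
  have : u = u' := by
    rcases List.append_eq_append_iff.1 e with ⟨c, hc1, hc2⟩ | ⟨c, hc1, hc2⟩
    · have := hB.pfx u c _ _ h (hc1 ▸ h')
      rw [hc1, this, List.append_nil]
    · have := hB.pfx u' c _ _ h' (hc1 ▸ h)
      rw [hc1, this, List.append_nil]
  subst this
  exact ⟨rfl, List.append_cancel_left e, hB.fn _ _ _ h h'⟩

theorem Code.gen_cons (hB : Code B) {w z : List α} {g g1 : G} (h : B w g1)
    (hg : Gen B (w ++ z) g) : ∃ g2, Gen B z g2 ∧ g = g1 * g2 := by
  rcases hg.inv with ⟨h1, _⟩ | ⟨u, u', a1, a2, e, eg, hu, hu'⟩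
  · exact absurd (List.append_eq_nil_iff.1 h1).1 (hB.ne _ _ h)
  · obtain ⟨_, h2, h3⟩ := hB.cmp h hu e
    subst h2 h3
    exact ⟨a2, hu', eg⟩

theorem Code.gen_fn (hB : Code B) {w : List α} {g g' : G} (h : Gen B w g) (h' : Gen B w g') :
    g = g' := by
  induction h generalizing g' with
  | nil =>
    rcases h'.inv with ⟨_, h2⟩ | ⟨u, u', a1, a2, e, eg, hu, hu'⟩
    · exact h2.symm
    · exact absurd (List.append_eq_nil_iff.1 e.symm).1 (hB.ne _ _ hu)
  | cons h1 h2 ih =>
    obtain ⟨g2, h3, h4⟩ := hB.gen_cons h1 h'
    rw [h4, ih h3]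

/-! ### paths -/

/-- nonempty products of blocks leading from `i` to `j` with all intermediate values in `U` -/
inductive Pth (B : List α → G → Prop) (U : Set G) : G → G → List α → Prop
  | single {i j g : G} {w : List α} (h : B w g) (e : i * g = j) : Pth B U i j w
  | cons {i j g i' : G} {w w' : List α} (h : B w g) (e : i * g = i') (hU : i' ∈ U)
      (h' : Pth B U i' j w') : Pth B U i j (w ++ w')

variable {U : Set G}

theorem Pth.inv {i j : G} {x : List α} (h : Pth B U i j x) :
    (∃ g, B x g ∧ i * g = j) ∨
      ∃ w w' g, x = w ++ w' ∧ B w g ∧ i * g ∈ U ∧ Pth B U (i * g) j w' := by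
  cases h with
  | single h e => exact Or.inl ⟨_, h, e⟩
  | cons h e hU h' =>
    subst e
    exact Or.inr ⟨_, _, _, rfl, h, hU, h'⟩

theorem Pth.gen {i j : G} {x : List α} (h : Pth B U i j x) : Gen B x (i⁻¹ * j) := by
  induction h with
  | single h e =>
    rw [← e, inv_mul_cancel_left]
    exact Gen.base h
  | @cons i j g i' w w' h e _ _ ih =>
    have : i⁻¹ * j = g * (i'⁻¹ * j) := by
      rw [← e]; group
    rw [this]
    exact Gen.cons h ih

theorem Code.pth_ne (hB : Code B) {i j : G} {x : List α} (h : Pth B U i j x) : x ≠ [] := by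
  cases h with
  | single h e => exact hB.ne _ _ h
  | cons h e hU h' =>
    intro hx
    exact hB.ne _ _ h (List.append_eq_nil_iff.1 hx).1

theorem Pth.mono {U' : Set G} (hU : U ⊆ U') {i j : G} {x : List α} (h : Pth B U i j x) :
    Pth B U' i j x := by
  induction h with
  | single h e => exact .single h e
  | cons h e hU' _ ih => exact .cons h e (hU hU') ih

theorem Pth.append {i k j : G} {u v : List α} (h : Pth B U i k u) (hk : k ∈ U)
    (h' : Pth B U k j v) : Pth B U i j (u ++ v) := by
  induction h with
  | single h e => exact .cons h e hk h'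
  | cons h e hU _ ih =>
    rw [List.append_assoc]
    exact .cons h e hU (ih hk h')

/-- the language of the paths -/
def PL (B : List α → G → Prop) (U : Set G) (i j : G) : Language α := {x | Pth B U i j x}

theorem star_pth {k j : G} {x y : List α} (hx : x ∈ KStar.kstar (PL B U k k))
    (hy : Pth B (insert k U) k j y) : Pth B (insert k U) k j (x ++ y) := by
  rw [Language.mem_kstar] at hx
  obtain ⟨l, rfl, hl⟩ := hx
  induction l with
  | nil => simpa using hy
  | cons z l ih =>
    rw [List.flatten_cons, List.append_assoc]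
    have hz : Pth B U k k z := hl z (by simp)
    exact (hz.mono (Set.subset_insert k U)).append (Set.mem_insert _ _)
      (ih (fun y hy => hl y (by simp [hy])))

theorem PL_insert (k i j : G) :
    PL B (insert k U) i j =
      PL B U i j ⊔ PL B U i k * (KStar.kstar (PL B U k k) * PL B U k j) := by
  ext x
  constructor
  · intro hx
    have hx' : Pth B (insert k U) i j x := hx
    clear hx
    show Pth B U i j x ∨ x ∈ PL B U i k * (KStar.kstar (PL B U k k) * PL B U k j)
    induction hx' with
    | single h e => exact Or.inl (.single h e)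
    | @cons i j g i' w w' h e hU _ ih =>
      rcases Set.mem_insert_iff.1 hU with hk | hU'
      · subst hk
        right
        rw [Language.mem_mul]
        rcases ih with ih | ih
        · refine ⟨w, .single h e, w', ?_, rfl⟩
          rw [Language.mem_mul]
          exact ⟨[], Language.nil_mem_kstar _, w', ih, rfl⟩
        · rw [Language.mem_mul] at ih
          obtain ⟨x1, hx1, x2, hx2, e2⟩ := ih
          rw [Language.mem_mul] at hx2
          obtain ⟨x3, hx3, x4, hx4, e4⟩ := hx2
          refine ⟨w, .single h e, w', ?_, rfl⟩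
          rw [Language.mem_mul]
          refine ⟨x1 ++ x3, ?_, x4, hx4, ?_⟩
          · exact star_append (star_base hx1) hx3
          · rw [List.append_assoc, e4, e2]
      · rcases ih with ih | ih
        · exact Or.inl (.cons h e hU' ih)
        · right
          rw [Language.mem_mul] at ih ⊢
          obtain ⟨x1, hx1, x2, hx2, e2⟩ := ih
          refine ⟨w ++ x1, .cons h e hU' hx1, x2, hx2, ?_⟩
          rw [List.append_assoc, e2]
  · rintro (hx | hx)
    · exact Pth.mono (Set.subset_insert k U) hx
    · have hx' : x ∈ PL B U i k * (KStar.kstar (PL B U k k) * PL B U k j) := hx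
      rw [Language.mem_mul] at hx'
      obtain ⟨x1, hx1, x2, hx2, e2⟩ := hx'
      rw [Language.mem_mul] at hx2
      obtain ⟨x3, hx3, x4, hx4, e4⟩ := hx2
      subst e4 e2
      have h1 : Pth B U i k x1 := hx1
      have h4 : Pth B U k j x4 := hx4
      exact (h1.mono (Set.subset_insert k U)).append (Set.mem_insert _ _)
        (star_pth hx3 (h4.mono (Set.subset_insert k U)))

theorem Code.first (hB : Code B) {u : List α} {g : G} (hu : Gen B u g) :
    u ≠ [] → ∀ (i j : G) (v : List α), i * g ∉ U → Pth B U i j (u ++ v) → v = [] := by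
  induction hu with
  | nil => intro h; exact absurd rfl h
  | @cons w w' g1 g2 h h' ih =>
    intro _ i j v hi hp
    rw [List.append_assoc] at hp
    rcases hp.inv with ⟨g', hg', _⟩ | ⟨u, u', g', e, hu, hU, hu'⟩
    · have := hB.pfx w _ _ _ h hg'
      exact (List.append_eq_nil_iff.1 this).2
    · obtain ⟨_, h2, h3⟩ := hB.cmp h hu e
      subst h2 h3
      by_cases hw' : w' = []
      · subst hw'
        have hg2 : g2 = 1 := hB.gen_fn h' Gen.nil
        subst hg2
        rw [mul_one] at hi
        exact absurd hU hi
      · exact ih hw' _ _ _ (by rwa [mul_assoc]) hu'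

theorem Code.bifix (hB : Code B) {k : G} (hk : k ∉ U) : IsBifix (PL B U k k) := by
  refine ⟨?_, ?_, ?_⟩
  · intro h
    exact hB.pth_ne h rfl
  · intro u v hu huv
    have hu' : Pth B U k k u := hu
    have huv' : Pth B U k k (u ++ v) := huv
    have h1 := hu'.gen
    rw [inv_mul_cancel] at h1
    exact hB.first h1 (hB.pth_ne hu') k k v (by rwa [mul_one]) huv'
  · intro u v hv huv
    have hv' : Pth B U k k v := hv
    have huv' : Pth B U k k (u ++ v) := huv
    have h1 := hv'.gen
    have h2 := huv'.gen
    rw [inv_mul_cancel] at h1 h2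
    obtain ⟨g, hg⟩ := hB.cut u v 1 1 h2 h1
    have h3 : g * 1 = 1 := hB.gen_fn (hg.append h1) h2
    rw [mul_one] at h3
    subst h3
    by_contra hu
    have := hB.first hg hu k k v (by rwa [mul_one]) huv'
    exact hB.pth_ne hv' this

theorem Code.ex_pth [Finite G] (hB : Code B) (hE : ∀ g, Ex ({x | B x g} : Language α))
    (U : Finset G) : ∀ i j, Ex (PL B (U : Set G) i j) := by
  classical
  induction U using Finset.induction_on with
  | empty =>
    intro i j
    have : PL B ((∅ : Finset G) : Set G) i j = ({x | B x (i⁻¹ * j)} : Language α) := by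
      ext x
      constructor
      · intro hx
        have hx' : Pth B ((∅ : Finset G) : Set G) i j x := hx
        rcases hx'.inv with ⟨g, hg, e⟩ | ⟨_, _, g, _, _, hU, _⟩
        · rw [← e]
          show B x _
          rwa [inv_mul_cancel_left]
        · simp at hU
      · intro hx
        have hx' : B x (i⁻¹ * j) := hx
        exact Pth.single hx' (mul_inv_cancel_left i j)
    rw [this]
    exact hE _
  | insert k U hk ih =>
    intro i j
    rw [Finset.coe_insert, PL_insert]
    have hk' : k ∉ (U : Set G) := by simpa using hk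
    exact (ih i j).sup ((ih i k).mul (((ih k k).star (hB.bifix hk')).mul (ih k j)))

theorem gen_iff {x : List α} {g : G} :
    Gen B x g ↔ (x = [] ∧ g = 1) ∨ Pth B Set.univ 1 g x := by
  constructor
  · intro h
    have key : ∀ i : G, (x = [] ∧ g = 1) ∨ Pth B Set.univ i (i * g) x := by
      induction h with
      | nil => intro i; exact Or.inl ⟨rfl, rfl⟩
      | @cons w w' g1 g2 h h' ih =>
        intro i
        right
        rcases ih (i * g1) with ⟨h1, h2⟩ | h1
        · subst h1 h2
          rw [List.append_nil, mul_one]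
          exact .single h rfl
        · rw [← mul_assoc]
          exact .cons h rfl (Set.mem_univ _) h1
    have := key 1
    rwa [one_mul] at this
  · rintro (⟨rfl, rfl⟩ | h)
    · exact Gen.nil
    · have := h.gen
      simpa using this

theorem Code.ex_gen [Finite G] (hB : Code B) (hE : ∀ g, Ex ({x | B x g} : Language α))
    (g : G) : Ex ({x | Gen B x g} : Language α) := by
  classical
  have hfin : Fintype G := Fintype.ofFinite G
  have h1 : Ex (PL B Set.univ 1 g) := by
    have := hB.ex_pth hE Finset.univ 1 g
    rwa [Finset.coe_univ] at this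
  by_cases hg : g = 1
  · have : ({x | Gen B x g} : Language α) = (1 : Language α) ⊔ PL B Set.univ 1 g := by
      ext x
      constructor
      · intro hx
        rcases gen_iff.1 hx with ⟨h, _⟩ | h
        · exact Or.inl (by rw [h]; exact Language.mem_one _ |>.2 rfl)
        · exact Or.inr h
      · rintro (h | h)
        · exact gen_iff.2 (Or.inl ⟨(Language.mem_one _).1 h, hg⟩)
        · exact gen_iff.2 (Or.inr h)
    rw [this]
    exact Ex.one.sup h1
  · have : ({x | Gen B x g} : Language α) = PL B Set.univ 1 g := by
      ext x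
      constructor
      · intro hx
        rcases gen_iff.1 hx with ⟨_, h⟩ | h
        · exact absurd h hg
        · exact h
      · intro h
        exact gen_iff.2 (Or.inr h)
    rw [this]
    exact h1

end Pool.Agent.H643R2.BX
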