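import Pool.Agent.H643R2.BX.Wit

/-! # Strictness of every level -/

namespace Pool.Agent.H643R2.BX

open Pool.Agent.H643R2.SH

variable {α : Type}

/-- `L` is denoted by an expression of height at most `h` in which the star is only applied to
bifix codes -/
def ExH (h : ℕ) (L : Language α) : Prop := ∃ E : GRE α, BifixStars E ∧ E.height ≤ h ∧ E.lang = L

theorem ExH.mono {h k : ℕ} (hk : h ≤ k) {L : Language α} (hL : ExH h L) : ExH k L := by
  obtain ⟨E, h1, h2, h3⟩ := hL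
  exact ⟨E, h1, h2.trans hk, h3⟩

/-- if one level adds nothing, then no later level does -/
theorem collapse {h : ℕ} (hc : ∀ L : Language α, ExH (h + 1) L → ExH h L) :
    ∀ L : Language α, Ex L → ExH h L := by
  rintro L ⟨E, hE, rfl⟩
  induction E with
  | zero => exact ⟨.zero, trivial, Nat.zero_le _, rfl⟩
  | one => exact ⟨.one, trivial, Nat.zero_le _, rfl⟩
  | char a => exact ⟨.char a, trivial, Nat.zero_le _, rfl⟩
  | union E F ihE ihF =>
    obtain ⟨E', a1, a2, a3⟩ := ihE hE.1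
    obtain ⟨F', b1, b2, b3⟩ := ihF hE.2
    exact ⟨.union E' F', ⟨a1, b1⟩, max_le a2 b2, by simp [GRE.lang, a3, b3]⟩
  | inter E F ihE ihF =>
    obtain ⟨E', a1, a2, a3⟩ := ihE hE.1
    obtain ⟨F', b1, b2, b3⟩ := ihF hE.2
    exact ⟨.inter E' F', ⟨a1, b1⟩, max_le a2 b2, by simp [GRE.lang, a3, b3]⟩
  | cat E F ihE ihF =>
    obtain ⟨E', a1, a2, a3⟩ := ihE hE.1
    obtain ⟨F', b1, b2, b3⟩ := ihF hE.2
    exact ⟨.cat E' F', ⟨a1, b1⟩, max_le a2 b2, by simp [GRE.lang, a3, b3]⟩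
  | compl E ih =>
    obtain ⟨E', a1, a2, a3⟩ := ih hE
    exact ⟨.compl E', a1, a2, by simp [GRE.lang, a3]⟩
  | star E ih =>
    obtain ⟨E', a1, a2, a3⟩ := ih hE.1
    apply hc
    exact ⟨.star E', ⟨a1, by rw [a3]; exact hE.2⟩, Nat.succ_le_succ a2, by simp [GRE.lang, a3]⟩

theorem a5_noncomm : ∃ p q : alternatingGroup (Fin 5), p * q ≠ q * p := by
  refine ⟨⟨Equiv.swap 0 1 * Equiv.swap 2 3, ?_⟩, ⟨Equiv.swap 0 1 * Equiv.swap 2 4, ?_⟩, ?_⟩
  · rw [Equiv.Perm.mem_alternatingGroup]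
    decide
  · rw [Equiv.Perm.mem_alternatingGroup]
    decide
  · intro h
    have h1 := congrArg Subtype.val h
    have h2 := Equiv.congr_fun h1 2
    revert h2
    decide

/-- for every height there is a language beyond it -/
theorem beyond (h : ℕ) : ∃ L : Language (Fin 2), Ex L ∧ ¬ ExH h L := by
  have : NeZero (Nat.card (alternatingGroup (Fin 5))) := ⟨Nat.card_pos.ne'⟩
  obtain ⟨p, q, hpq⟩ := a5_noncomm
  have hcard : Nat.card (Multiplicative (ZMod (Nat.card (alternatingGroup (Fin 5))))) =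
      Nat.card (alternatingGroup (Fin 5)) := by
    rw [Nat.card_congr Multiplicative.toAdd, Nat.card_zmod]
  obtain ⟨e⟩ : Nonempty (Multiplicative (ZMod (Nat.card (alternatingGroup (Fin 5)))) ≃
      alternatingGroup (Fin 5)) := Finite.card_eq.1 hcard
  obtain ⟨h1, h2⟩ := hierarchy e.surjective hpq h
  exact ⟨_, h1, fun h3 => h2 (h3.mono (Nat.le_succ h))⟩

/-- every level is strictly larger than the one below -/
theorem strict (h : ℕ) : ∃ L : Language (Fin 2), ExH (h + 1) L ∧ ¬ ExH h L := by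
  by_contra hcon
  push Not at hcon
  obtain ⟨L, h1, h2⟩ := beyond h
  exact h2 (collapse hcon L h1)

theorem exact_height (h : ℕ) : ∃ L : Language (Fin 2), L.IsRegular ∧
    (∃ E : GRE (Fin 2), BifixStars E ∧ E.height = h ∧ E.lang = L) ∧
    ∀ E : GRE (Fin 2), BifixStars E → E.lang = L → h ≤ E.height := by
  cases h with
  | zero =>
    refine ⟨0, ?_, ⟨.zero, trivial, rfl, rfl⟩, fun _ _ _ => Nat.zero_le _⟩
    exact Ex.isRegular Ex.zero
  | succ h =>
    obtain ⟨L, ⟨E, h1, h2, h3⟩, h4⟩ := strict h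
    refine ⟨L, Ex.isRegular ⟨E, h1, h3⟩, ⟨E, h1, ?_, h3⟩, ?_⟩
    · by_contra hne
      exact h4 ⟨E, h1, by omega, h3⟩
    · intro F hF hFL
      by_contra hlt
      exact h4 ⟨F, hF, by omega, hFL⟩

end Pool.Agent.H643R2.BX
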