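import Pool.Agent.H643R2.BX.Step

/-! # The induction step for bifix star height -/

namespace Pool.Agent.H643R2.BX

open Pool.Agent.H643R2.SH

variable {α : Type}

/-! ### The quotient monoid of finitely many languages -/

/-- joint syntactic congruence -/
def synCon (l : List (Language α)) : Con (FreeMonoid α) where
  r w w' := ∀ L ∈ l, SE L (FreeMonoid.toList w) (FreeMonoid.toList w')
  iseqv :=
    { refl := fun _ _ _ => SE.refl _ _
      symm := fun h L hL => (h L hL).symm
      trans := fun h h' L hL => (h L hL).trans (h' L hL) }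
  mul' := by
    intro a b c d h h' L hL
    rw [FreeMonoid.toList_mul, FreeMonoid.toList_mul]
    exact (h L hL).append (h' L hL)

/-- class of a word -/
def mk (l : List (Language α)) (w : List α) : (synCon l).Quotient :=
  ((FreeMonoid.ofList w : FreeMonoid α) : (synCon l).Quotient)

theorem mk_eq {l : List (Language α)} {u v : List α} :
    mk l u = mk l v ↔ ∀ L ∈ l, SE L u v := by
  unfold mk
  rw [Con.eq]
  rfl

theorem mk_append (l : List (Language α)) (u v : List α) : mk l (u ++ v) = mk l u * mk l v := rfl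

theorem mk_pw (l : List (Language α)) (w : List α) (k : ℕ) : mk l (pw w k) = (mk l w) ^ k := by
  induction k with
  | zero => rfl
  | succ k ih => rw [pw_succ, mk_append, ih, pow_succ']

theorem list_sFin (l : List (Language α)) (h : ∀ L ∈ l, SFin L) :
    ∃ (M : Type) (_ : Finite M) (g : List α → M), ∀ u u', g u = g u' → ∀ L ∈ l, SE L u u' := by
  induction l with
  | nil => exact ⟨Unit, inferInstance, fun _ => (), fun _ _ _ L hL => absurd hL (by simp)⟩
  | cons L l ih =>
    obtain ⟨M, hM, g, hg⟩ := ih (fun L hL => h L (by simp [hL]))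
    obtain ⟨M', hM', g', hg'⟩ := h L (by simp)
    refine ⟨M × M', inferInstance, fun u => (g u, g' u), ?_⟩
    intro u u' hu K hK
    rcases List.mem_cons.1 hK with rfl | hK
    · exact hg' u u' (congrArg Prod.snd hu)
    · exact hg u u' (congrArg Prod.fst hu) K hK

theorem finite_quot (l : List (Language α)) (h : ∀ L ∈ l, SFin L) :
    Finite (synCon l).Quotient := by
  classical
  obtain ⟨M, hM, g, hg⟩ := list_sFin l h
  let F : Set.range g → (synCon l).Quotient := fun m => mk l m.2.choose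
  apply Finite.of_surjective F
  intro q
  obtain ⟨w, rfl⟩ := Quotient.exists_rep q
  refine ⟨⟨g (FreeMonoid.toList w), ⟨_, rfl⟩⟩, ?_⟩
  have hm : ∃ s', g s' = g (FreeMonoid.toList w) := ⟨_, rfl⟩
  have h1 : g hm.choose = g (FreeMonoid.toList w) := hm.choose_spec
  have h2 : mk l hm.choose = mk l (FreeMonoid.toList w) := mk_eq.2 (hg _ _ h1)
  exact h2

theorem exists_word (l : List (Language α)) (hl : ∀ L ∈ l, SFin L) {G : Type} [Group G]
    [Finite G] (V : List α → G → Prop)
    (mul : ∀ {u v g h}, V u g → V v h → V (u ++ v) (g * h))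
    (S : Set (List α)) (hne : S.Nonempty) (hS : ∀ x ∈ S, ∀ y ∈ S, x ++ y ∈ S)
    (hV : ∀ x ∈ S, ∃ g, V x g) :
    ∃ e ∈ S, V e 1 ∧ (∀ L ∈ l, SE L (e ++ e) e) ∧
      ∀ x ∈ S, ∀ g, V x g → ∃ k, 0 < k ∧ g ^ k = 1 ∧ (∀ L ∈ l, SE L (pw (e ++ x ++ e) k) e) ∧
        (∀ L ∈ l, SE L (e ++ x ++ e ++ pw (x ++ e) (k - 1) ++ e) e) ∧
        (∀ L ∈ l, SE L (e ++ pw (x ++ e) (k - 1) ++ e ++ x ++ e) e) := by
  have hfin := finite_quot l hl
  let S' : Set ((synCon l).Quotient × G) := {p | ∃ w ∈ S, V w p.2 ∧ mk l w = p.1}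
  have hne' : S'.Nonempty := by
    obtain ⟨x, hx⟩ := hne
    obtain ⟨g, hg⟩ := hV x hx
    exact ⟨(mk l x, g), x, hx, hg, rfl⟩
  have hmul' : ∀ x ∈ S', ∀ y ∈ S', x * y ∈ S' := by
    rintro p ⟨w, hw, h1, h2⟩ q ⟨w', hw', h1', h2'⟩
    refine ⟨w ++ w', hS w hw w' hw', mul h1 h1', ?_⟩
    rw [mk_append, h2, h2']
    rfl
  obtain ⟨⟨e0, g0⟩, ⟨e, heS, heV, hee⟩, hid, hmin⟩ := exists_min_idem S' hne' hmul'
  simp only at heV hee
  have hg0 : g0 = 1 := by
    have := congrArg Prod.snd hid
    simpa using this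
  subst hg0
  have hid1 : mk l e * mk l e = mk l e := by
    have := congrArg Prod.fst hid
    rw [hee]
    simpa using this
  refine ⟨e, heS, heV, ?_, ?_⟩
  · rw [← mk_eq, mk_append]
    exact hid1
  · intro x hx g hg
    obtain ⟨k, hk, h⟩ := hmin (mk l x, g) ⟨x, hx, hg, rfl⟩
    have h1 : (mk l e * mk l x * mk l e) ^ k = mk l e := by
      have := congrArg Prod.fst h
      rw [hee]
      simpa using this
    have h2 : g ^ k = 1 := by
      have := congrArg Prod.snd h
      simpa using this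
    obtain ⟨j1, j2⟩ := inv_of_pow hid1 hk h1
    refine ⟨k, hk, h2, ?_, ?_, ?_⟩
    · rw [← mk_eq, mk_pw, mk_append, mk_append]
      exact h1
    · rw [← mk_eq]
      simp only [mk_append, mk_pw]
      exact j1
    · rw [← mk_eq]
      simp only [mk_append, mk_pw]
      exact j2

/-! ### The inductive property -/

/-- Expressions of height at most `h` whose stars are applied to bifix codes do not see the
values. -/
def TP (h : ℕ) {G : Type} (V : List α → G → Prop) : Prop :=
  ∀ E : GRE α, E.height ≤ h → BifixStars E →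
    ∃ W : Set (List α), (∀ x ∈ W, ∀ y ∈ W, x ++ y ∈ W) ∧ (∀ x ∈ W, ∃ g, V x g) ∧
      (∀ g, ∃ x ∈ W, V x g) ∧ ∀ x ∈ W, ∀ y ∈ W, SE E.lang x y

theorem reduce {L : Language α} (hL : RFin L) {G : Type} [Group G] [Finite G]
    (V : List α → G → Prop)
    (mul : ∀ {u v g h}, V u g → V v h → V (u ++ v) (g * h))
    (W0 : Set (List α)) (hc : ∀ x ∈ W0, ∀ y ∈ W0, x ++ y ∈ W0)
    (hd : ∀ x ∈ W0, ∃ g, V x g) (hs : ∀ g, ∃ x ∈ W0, V x g) {N : ℕ}
    (hap : ∀ x ∈ W0, Apr L x N) :
    ∃ W : Set (List α), (∀ x ∈ W, ∀ y ∈ W, x ++ y ∈ W) ∧ (∀ x ∈ W, ∃ g, V x g) ∧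
      (∀ g, ∃ x ∈ W, V x g) ∧ ∀ x ∈ W, ∀ y ∈ W, SE L x y := by
  have hne : W0.Nonempty := by
    obtain ⟨x, hx, _⟩ := hs 1
    exact ⟨x, hx⟩
  obtain ⟨e, heW, heV, hee, hmin⟩ := exists_word [L] (by
    intro K hK
    rw [List.mem_singleton] at hK
    subst hK
    exact hL.sFin) V mul W0 hne hc hd
  have hee1 : mk [L] e * mk [L] e = mk [L] e := by
    rw [← mk_append, mk_eq]; exact hee
  refine ⟨{x | x ∈ W0 ∧ SE L x e}, ?_, ?_, ?_, ?_⟩
  · rintro x ⟨hx, hx'⟩ y ⟨hy, hy'⟩
    exact ⟨hc x hx y hy, (hx'.append hy').trans (hee L (by simp))⟩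
  · rintro x ⟨hx, _⟩
    exact hd x hx
  · intro g
    obtain ⟨x, hx, hxg⟩ := hs g
    obtain ⟨k, hk, _, hk2, _, _⟩ := hmin x hx g hxg
    refine ⟨e ++ x ++ e, ⟨hc _ (hc _ heW _ hx) _ heW, ?_⟩, ?_⟩
    · have hxW : e ++ x ++ e ∈ W0 := hc _ (hc _ heW _ hx) _ heW
      set z := mk [L] (e ++ x ++ e) with hz
      have a1 : z ^ k = mk [L] e := by
        rw [hz, ← mk_pw, mk_eq]; exact hk2
      have a2 : ∀ m, N ≤ m → z ^ m = z ^ (m + 1) := by
        intro m hm
        rw [hz, ← mk_pw, ← mk_pw, mk_eq]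
        intro K hK
        rw [List.mem_singleton] at hK
        subst hK
        exact hap _ hxW m hm
      have a3 : ∀ j : ℕ, (mk [L] e) ^ (j + 1) = mk [L] e := by
        intro j
        induction j with
        | zero => simp
        | succ j ih => rw [pow_succ, ih, hee1]
      have a4 : z ^ (k * (N + 1)) = mk [L] e := by
        rw [pow_mul, a1, a3]
      have a5 : mk [L] e * z = z := by
        rw [hz]
        simp only [mk_append, ← mul_assoc, hee1]
      have a6 : z = mk [L] e := by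
        have h1 : N ≤ k * (N + 1) := by nlinarith
        calc z = mk [L] e * z := a5.symm
          _ = z ^ (k * (N + 1)) * z := by rw [a4]
          _ = z ^ (k * (N + 1) + 1) := by rw [pow_succ]
          _ = z ^ (k * (N + 1)) := (a2 _ h1).symm
          _ = mk [L] e := a4
      exact (mk_eq.1 a6) L (by simp)
    · have := mul (mul heV hxg) heV
      simpa using this
  · rintro x ⟨_, hx⟩ y ⟨_, hy⟩
    exact hx.trans hy.symm

theorem val_pw {G : Type} [Group G] (V : List α → G → Prop)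
    (mul : ∀ {u v g h}, V u g → V v h → V (u ++ v) (g * h)) (one : V [] 1)
    {x : List α} {g : G} (h : V x g) (k : ℕ) : V (pw x k) (g ^ k) := by
  induction k with
  | zero => simpa using one
  | succ k ih => rw [pw_succ, pow_succ']; exact mul h ih

theorem tp_step {h : ℕ} {G' G : Type} [Group G'] [Finite G'] [Group G] [Finite G]
    [IsSimpleGroup G]
    (V' : List α → G' → Prop) (V : List α → G → Prop) (f : G' → G) (a b : List α)
    (mul' : ∀ {u v g h}, V' u g → V' v h → V' (u ++ v) (g * h))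
    (mul : ∀ {u v g h}, V u g → V v h → V (u ++ v) (g * h))
    (one : V [] 1) (surj : ∀ g, ∃ x, V x g)
    (blk : ∀ {W k}, V' W k → V (a ++ W ++ b) (f k))
    {p q : G} (hpq : p * q ≠ q * p)
    (hf : ¬ ∀ y u : G', (f 1)⁻¹ * f u = (f y)⁻¹ * f (y * u))
    (ih : TP h V') : TP (h + 1) V := by
  intro E hE hb
  have hl : ∀ L ∈ (stars E).map (fun F => KStar.kstar F.lang), SFin L := by
    intro L hL
    obtain ⟨F, _, rfl⟩ := List.mem_map.1 hL
    exact (RFin.star (GRE.rFin F)).sFin
  have domc : ∀ x ∈ {w | ∃ g, V w g}, ∀ y ∈ {w | ∃ g, V w g}, x ++ y ∈ {w | ∃ g, V w g} := by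
    rintro x ⟨g, hg⟩ y ⟨g', hg'⟩
    exact ⟨_, mul hg hg'⟩
  obtain ⟨e, _, heV, hee, hmin⟩ := exists_word _ hl V mul {w | ∃ g, V w g}
    ⟨[], 1, one⟩ domc (fun x hx => hx)
  have hmemF : ∀ F ∈ stars E, KStar.kstar F.lang ∈ (stars E).map (fun F => KStar.kstar F.lang) :=
    fun F hF => List.mem_map.2 ⟨F, hF, rfl⟩
  -- the monoid of words with values
  let R : Submonoid (FreeMonoid α × G) :=
    { carrier := {p | V (FreeMonoid.toList p.1) p.2}
      one_mem' := one
      mul_mem' := by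
        intro p q hp hq
        exact mul hp hq }
  let v : R →* G := (MonoidHom.snd (FreeMonoid α) G).comp R.subtype
  let eR : R := ⟨(FreeMonoid.ofList e, 1), heV⟩
  let cL : Language α → Con R := fun L =>
    { r := fun x y => SE L (FreeMonoid.toList x.1.1) (FreeMonoid.toList y.1.1)
      iseqv :=
        { refl := fun _ => SE.refl _ _
          symm := fun h => h.symm
          trans := fun h h' => h.trans h' }
      mul' := fun h h' => h.append h' }
  let c0 : Con R :=
    { r := fun x y => ∀ F ∈ stars E,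
        SE (KStar.kstar F.lang) (FreeMonoid.toList x.1.1) (FreeMonoid.toList y.1.1)
      iseqv :=
        { refl := fun _ _ _ => SE.refl _ _
          symm := fun h F hF => (h F hF).symm
          trans := fun h h' F hF => (h F hF).trans (h' F hF) }
      mul' := fun h h' F hF => (h F hF).append (h' F hF) }
  have hgrp : GrpLike v eR c0 := by
    refine ⟨?_, rfl, ?_⟩
    · intro F hF
      exact hee _ (hmemF F hF)
    · rintro ⟨⟨x, g⟩, hx⟩
      obtain ⟨k, hk, hgk, _, h1, h2⟩ := hmin (FreeMonoid.toList x) ⟨g, hx⟩ g hx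
      have hy : V (pw (FreeMonoid.toList x ++ e) (k - 1)) (g ^ (k - 1)) := by
        have h3 : V (FreeMonoid.toList x ++ e) g := by
          have := mul hx heV
          simpa using this
        exact val_pw V mul one h3 (k - 1)
      refine ⟨⟨(FreeMonoid.ofList (pw (FreeMonoid.toList x ++ e) (k - 1)), g ^ (k - 1)), hy⟩,
        ?_, ?_, ?_⟩
      · intro F hF
        exact h1 _ (hmemF F hF)
      · intro F hF
        exact h2 _ (hmemF F hF)
      · show g * g ^ (k - 1) = 1
        rw [← pow_succ', Nat.sub_add_cancel hk, hgk]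
  have hvs : Function.Surjective v := by
    intro g
    obtain ⟨x, hx⟩ := surj g
    exact ⟨⟨(FreeMonoid.ofList x, g), hx⟩, rfl⟩
  -- each single bifix code leaves some value undetermined
  have hsing : ∀ F ∈ stars E, ∃ r, cL (KStar.kstar F.lang) (eR * r * eR) eR ∧ v r ≠ 1 := by
    intro F hF
    by_contra hcon
    apply hf
    obtain ⟨W, hWc, hWd, hWs, hWK⟩ := ih F (stars_height hE F hF) (stars_bifix hb F hF).1
    have hWne : W.Nonempty := by
      obtain ⟨x, hx, _⟩ := hWs 1
      exact ⟨x, hx⟩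
    obtain ⟨w, hwW, hwV, hww, hwmin⟩ := exists_word [KStar.kstar F.lang] (by
      intro K hK
      rw [List.mem_singleton] at hK
      subst hK
      exact (RFin.star (GRE.rFin F)).sFin) V' mul' W hWne hWc hWd
    refine bifix_step (stars_bifix hb F hF).2 V' V f a b mul' mul blk e heV ?_ W hWc hWs hWK
      w hwW hwV (hww _ (by simp)) ?_ ?_
    · intro x g hx
      obtain ⟨k, hk, hgk, _, h1, h2⟩ := hmin x ⟨g, hx⟩ g hx
      refine ⟨pw (x ++ e) (k - 1), ?_, h1 _ (hmemF F hF), h2 _ (hmemF F hF)⟩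
      have h3 : V (x ++ e) g := by
        have := mul hx heV
        simpa using this
      have h4 := val_pw V mul one h3 (k - 1)
      have h5 : g ^ (k - 1) = g⁻¹ := by
        apply eq_inv_of_mul_eq_one_right
        rw [← pow_succ', Nat.sub_add_cancel hk, hgk]
      rw [h5] at h4
      exact h4
    · intro x hx
      obtain ⟨g, hg⟩ := hWd x hx
      obtain ⟨k, hk, _, h1, _, _⟩ := hwmin x hx g hg
      exact ⟨k, hk, h1 _ (by simp)⟩
    · intro u g hu hse
      by_contra hg
      apply hcon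
      exact ⟨⟨(FreeMonoid.ofList u, g), hu⟩, hse, hg⟩
  have hall := simple_inf hgrp hvs hpq (fun F : GRE α => cL (KStar.kstar F.lang)) (stars E)
    (fun F hF x y hxy => hxy F hF) hsing
  obtain ⟨N, hN⟩ := apr_of_stars E
  refine reduce (GRE.rFin E) V mul
    {w | (∃ g, V w g) ∧ ∀ F ∈ stars E, SE (KStar.kstar F.lang) w e} ?_ ?_ ?_ (N := N) ?_
  · rintro x ⟨⟨g, hg⟩, hx⟩ y ⟨⟨g', hg'⟩, hy⟩
    exact ⟨⟨_, mul hg hg'⟩, fun F hF => ((hx F hF).append (hy F hF)).trans (hee _ (hmemF F hF))⟩
  · rintro x ⟨hx, _⟩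
    exact hx
  · intro g
    obtain ⟨⟨⟨x, g'⟩, hx⟩, hr, hg⟩ := hall g
    have hg' : g' = g := hg
    subst hg'
    refine ⟨e ++ FreeMonoid.toList x ++ e, ⟨⟨g', ?_⟩, fun F hF => hr F hF⟩, ?_⟩
    · have := mul (mul heV hx) heV
      simpa using this
    · have := mul (mul heV hx) heV
      simpa using this
  · rintro x ⟨_, hx⟩
    apply hN
    intro F hF
    exact (((hx F hF).append (hx F hF)).trans (hee _ (hmemF F hF))).trans (hx F hF).symm

end Pool.Agent.H643R2.BX
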