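import Mathlib

/-! # Finite monoids and simple groups -/

namespace Pool.Agent.H643R2.BX

theorem exists_idem_pow {M : Type*} [Monoid M] [Finite M] (x : M) :
    ∃ k, 0 < k ∧ x ^ k * x ^ k = x ^ k := by
  obtain ⟨i, j, hij, h⟩ := Finite.exists_ne_map_eq_of_infinite (fun n : ℕ => x ^ n)
  have key : ∀ i j : ℕ, i < j → x ^ i = x ^ j → ∃ k, 0 < k ∧ x ^ k * x ^ k = x ^ k := by
    intro i j hij h
    obtain ⟨p, hp, rfl⟩ : ∃ p, 0 < p ∧ j = i + p := ⟨j - i, by omega, by omega⟩
    have h1 : ∀ n, i ≤ n → x ^ (n + p) = x ^ n := by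
      intro n hn
      obtain ⟨m, rfl⟩ := Nat.exists_eq_add_of_le hn
      have : i + m + p = (i + p) + m := by ring
      rw [this, pow_add, ← h, ← pow_add]
    have h2 : ∀ k n, i ≤ n → x ^ (n + k * p) = x ^ n := by
      intro k
      induction k with
      | zero => intro n hn; simp
      | succ k ih =>
        intro n hn
        have : n + (k + 1) * p = (n + k * p) + p := by ring
        rw [this, h1 _ (by omega), ih n hn]
    refine ⟨(i + 1) * p, Nat.mul_pos (by omega) hp, ?_⟩
    rw [← pow_add]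
    apply h2
    nlinarith
  rcases lt_or_gt_of_ne hij with h1 | h1
  · exact key i j h1 h
  · exact key j i h1 h.symm

/-- an idempotent of the minimal ideal -/
theorem exists_min_idem {M : Type*} [Monoid M] [Finite M] (S : Set M) (hne : S.Nonempty)
    (hmul : ∀ x ∈ S, ∀ y ∈ S, x * y ∈ S) :
    ∃ e ∈ S, e * e = e ∧ ∀ x ∈ S, ∃ k, 0 < k ∧ (e * x * e) ^ k = e := by
  classical
  have hpow : ∀ x ∈ S, ∀ k, 0 < k → x ^ k ∈ S := by
    intro x hx k hk
    induction k, hk using Nat.le_induction with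
    | base => simpa using hx
    | succ k hk ih => rw [pow_succ]; exact hmul _ ih _ hx
  let A : M → Set M := fun e => {y | ∃ x ∈ S, y = e * x * e}
  let I : Set M := {e | e ∈ S ∧ e * e = e}
  have hI : I.Nonempty := by
    obtain ⟨x, hx⟩ := hne
    obtain ⟨k, hk, h⟩ := exists_idem_pow x
    exact ⟨x ^ k, hpow x hx k hk, h⟩
  obtain ⟨e, he, hmin⟩ := Set.exists_min_image I (fun e => (A e).ncard) (Set.toFinite _) hI
  refine ⟨e, he.1, he.2, ?_⟩
  intro x hx
  obtain ⟨k, hk, h⟩ := exists_idem_pow (e * x * e)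
  refine ⟨k, hk, ?_⟩
  set f := (e * x * e) ^ k with hf
  have hfS : f ∈ S := hpow _ (hmul _ (hmul _ he.1 _ hx) _ he.1) k hk
  have hef : e * f = f := by
    obtain ⟨k', rfl⟩ : ∃ k', k = k' + 1 := ⟨k - 1, by omega⟩
    rw [hf, pow_succ']
    simp only [← mul_assoc, he.2]
  have hfe : f * e = f := by
    obtain ⟨k', rfl⟩ : ∃ k', k = k' + 1 := ⟨k - 1, by omega⟩
    rw [hf, pow_succ]
    simp only [mul_assoc, he.2]
  have hsub : A f ⊆ A e := by
    rintro _ ⟨y, hy, rfl⟩
    refine ⟨f * y * f, hmul _ (hmul _ hfS _ hy) _ hfS, ?_⟩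
    have : e * (f * y * f) * e = (e * f) * y * (f * e) := by simp only [mul_assoc]
    rw [this, hef, hfe]
  have hle : (A e).ncard ≤ (A f).ncard := hmin f ⟨hfS, h⟩
  have heq : A f = A e := Set.eq_of_subset_of_ncard_le hsub hle (Set.toFinite _)
  have hmem : e ∈ A f := by
    rw [heq]
    exact ⟨e, he.1, by rw [he.2, he.2]⟩
  obtain ⟨y, _, hy⟩ := hmem
  have h3 : f * e = e := by
    conv_lhs => rw [hy]
    conv_rhs => rw [hy]
    simp only [← mul_assoc, h]
  rw [← hfe, h3]

/-- inverses in the group of a minimal idempotent -/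
theorem inv_of_pow {M : Type*} [Monoid M] {e r : M} (he : e * e = e) {k : ℕ} (hk : 0 < k)
    (h : (e * r * e) ^ k = e) :
    e * r * e * (r * e) ^ (k - 1) * e = e ∧ e * (r * e) ^ (k - 1) * e * r * e = e := by
  have h0 : ∀ j : ℕ, e * (r * e) ^ j * e = (e * r * e) ^ j * e := by
    intro j
    induction j with
    | zero => simp [he]
    | succ j ih =>
      have h1 : (e * r * e) ^ (j + 1) * e = (e * r * e) * ((e * r * e) ^ j * e) := by
        rw [pow_succ', mul_assoc]
      rw [h1, ← ih, pow_succ']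
      have h2 : e * r * e * (e * (r * e) ^ j * e) = e * r * (e * e) * ((r * e) ^ j * e) := by
        simp only [mul_assoc]
      rw [h2, he]
      simp only [mul_assoc]
  obtain ⟨k', rfl⟩ : ∃ k', k = k' + 1 := ⟨k - 1, by omega⟩
  simp only [Nat.add_sub_cancel]
  constructor
  · have h1 : e * r * e * (r * e) ^ k' * e = e * (r * e) ^ (k' + 1) * e := by
      rw [pow_succ']; simp only [mul_assoc]
    rw [h1, h0, h, he]
  · have h1 : e * (r * e) ^ k' * e * r * e = (e * (r * e) ^ k' * e) * (r * e) := by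
      simp only [mul_assoc]
    rw [h1, h0]
    have h2 : (e * r * e) ^ k' * e * (r * e) = (e * r * e) ^ k' * (e * r * e) := by
      simp only [mul_assoc]
    rw [h2, ← pow_succ, h]

section

variable {R G : Type*} [Monoid R] [Group G] (v : R →* G) (e : R) (c0 : Con R)

/-- `e` behaves like the identity of a group modulo `c0`, and the values are compatible. -/
structure GrpLike : Prop where
  idem : c0 (e * e) e
  val : v e = 1
  inv : ∀ r, ∃ r', c0 (e * r * e * r' * e) e ∧ c0 (e * r' * e * r * e) e ∧ v r * v r' = 1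

variable {v e c0}

/-- values of elements acting trivially for the congruence `c` -/
def nsub (h : GrpLike v e c0) (c : Con R) (hc : c0 ≤ c) : Subgroup G where
  carrier := {g | ∃ r, c (e * r * e) e ∧ v r = g}
  one_mem' := ⟨1, by rw [mul_one]; exact hc h.idem, map_one v⟩
  mul_mem' := by
    rintro g g' ⟨r, hr, rfl⟩ ⟨r', hr', rfl⟩
    refine ⟨r * e * r', ?_, by rw [map_mul, map_mul, h.val, mul_one]⟩
    have h1 : c ((e * r * e) * (r' * e)) (e * (r' * e)) := c.mul hr (c.refl _)
    have h2 : e * (r * e * r') * e = (e * r * e) * (r' * e) := by simp only [mul_assoc]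
    rw [h2]
    refine c.trans h1 ?_
    rw [← mul_assoc]
    exact hr'
  inv_mem' := by
    rintro g ⟨r, hr, rfl⟩
    obtain ⟨r', h1, h2, hv⟩ := h.inv r
    refine ⟨r', ?_, ?_⟩
    · have h3 : c ((e * r * e) * (r' * e)) (e * (r' * e)) := c.mul hr (c.refl _)
      have h4 : e * r * e * r' * e = (e * r * e) * (r' * e) := by simp only [mul_assoc]
      rw [← h4, ← mul_assoc] at h3
      exact c.trans (c.symm h3) (hc h1)
    · exact eq_inv_of_mul_eq_one_right hv

theorem mem_nsub (h : GrpLike v e c0) (c : Con R) (hc : c0 ≤ c) (g : G) :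
    g ∈ nsub h c hc ↔ ∃ r, c (e * r * e) e ∧ v r = g := Iff.rfl

theorem nsub_normal (h : GrpLike v e c0) (hv : Function.Surjective v) (c : Con R) (hc : c0 ≤ c) :
    (nsub h c hc).Normal := by
  constructor
  rintro g ⟨r, hr, rfl⟩ y
  obtain ⟨x, rfl⟩ := hv y
  obtain ⟨x', h1, h2, h3⟩ := h.inv x
  refine ⟨x * e * r * e * x', ?_, ?_⟩
  · have h4 : e * (x * e * r * e * x') * e = (e * x) * (e * r * e) * (x' * e) := by
      simp only [mul_assoc]
    have h5 : c ((e * x) * (e * r * e) * (x' * e)) ((e * x) * e * (x' * e)) :=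
      c.mul (c.mul (c.refl _) hr) (c.refl _)
    rw [h4]
    refine c.trans h5 ?_
    have h6 : (e * x) * e * (x' * e) = e * x * e * x' * e := by simp only [mul_assoc]
    rw [h6]
    exact hc h1
  · simp only [map_mul, h.val, mul_one]
    rw [eq_inv_of_mul_eq_one_right h3]

theorem nsub_eq_top [IsSimpleGroup G] (h : GrpLike v e c0) (hv : Function.Surjective v)
    (c : Con R) (hc : c0 ≤ c) (g : G) (hg : g ≠ 1) (hm : g ∈ nsub h c hc) :
    nsub h c hc = ⊤ := by
  have hn := nsub_normal h hv c hc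
  rcases IsSimpleGroup.eq_bot_or_eq_top_of_normal _ hn with h1 | h1
  · rw [h1, Subgroup.mem_bot] at hm
    exact absurd hm hg
  · exact h1

theorem nsub_inf [IsSimpleGroup G] (h : GrpLike v e c0) (hv : Function.Surjective v)
    {a b : G} (hab : a * b ≠ b * a) (c c' : Con R) (hc : c0 ≤ c) (hc' : c0 ≤ c')
    (h1 : nsub h c hc = ⊤) (h2 : nsub h c' hc' = ⊤) :
    nsub h (c ⊓ c') (le_inf hc hc') = ⊤ := by
  obtain ⟨r, hr, rfl⟩ : a ∈ nsub h c hc := by rw [h1]; trivial
  obtain ⟨r', hr', rfl⟩ : b ∈ nsub h c' hc' := by rw [h2]; trivial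
  obtain ⟨s, hs1, hs2, hs3⟩ := h.inv r
  obtain ⟨s', hs1', hs2', hs3'⟩ := h.inv r'
  have hs : v s = (v r)⁻¹ := eq_inv_of_mul_eq_one_right hs3
  have hs' : v s' = (v r')⁻¹ := eq_inv_of_mul_eq_one_right hs3'
  -- the inverses are trivial as well
  have ts : c (e * s * e) e := by
    have h3 : c ((e * r * e) * (s * e)) (e * (s * e)) := c.mul hr (c.refl _)
    have h4 : e * r * e * s * e = (e * r * e) * (s * e) := by simp only [mul_assoc]
    rw [← h4, ← mul_assoc] at h3
    exact c.trans (c.symm h3) (hc hs1)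
  have ts' : c' (e * s' * e) e := by
    have h3 : c' ((e * r' * e) * (s' * e)) (e * (s' * e)) := c'.mul hr' (c'.refl _)
    have h4 : e * r' * e * s' * e = (e * r' * e) * (s' * e) := by simp only [mul_assoc]
    rw [← h4, ← mul_assoc] at h3
    exact c'.trans (c'.symm h3) (hc' hs1')
  apply nsub_eq_top h hv (c ⊓ c') (le_inf hc hc') (v r * v r' * v s * v s')
  · intro hcon
    apply hab
    rw [hs, hs'] at hcon
    have := mul_inv_eq_one.1 (by rw [← hcon] : v r * v r' * (v r)⁻¹ * (v r')⁻¹ = 1)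
    rw [mul_inv_eq_iff_eq_mul] at this
    exact this
  · refine ⟨r * e * r' * e * s * e * s', ?_, ?_⟩
    · refine Con.inf_iff_and.2 ?_
      constructor
      · -- modulo `c`: `r` and `s` are trivial
        have e1 : e * (r * e * r' * e * s * e * s') * e =
            (e * r * e) * (r' * (e * s * e) * (s' * e)) := by simp only [mul_assoc]
        have e2 : c ((e * r * e) * (r' * (e * s * e) * (s' * e))) (e * (r' * e * (s' * e))) :=
          c.mul hr (c.mul (c.mul (c.refl _) ts) (c.refl _))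
        rw [e1]
        refine c.trans e2 ?_
        have e3 : e * (r' * e * (s' * e)) = e * r' * e * s' * e := by simp only [mul_assoc]
        rw [e3]
        exact hc hs1'
      · have e1 : e * (r * e * r' * e * s * e * s') * e =
            (e * r * (e * r' * e) * s) * (e * s' * e) := by simp only [mul_assoc]
        have e2 : c' ((e * r * (e * r' * e) * s) * (e * s' * e)) ((e * r * e * s) * e) :=
          c'.mul (c'.mul (c'.mul (c'.refl _) hr') (c'.refl _)) ts'
        rw [e1]
        exact c'.trans e2 (hc' hs1)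
    · simp only [map_mul, h.val, mul_one]

/-- If each of finitely many congruences leaves a nontrivial value undetermined, then all of them
together leave all values undetermined. -/
theorem simple_inf [IsSimpleGroup G] (h : GrpLike v e c0) (hv : Function.Surjective v)
    {a b : G} (hab : a * b ≠ b * a) {ι : Type*} (c : ι → Con R) (l : List ι)
    (hc : ∀ i ∈ l, c0 ≤ c i) (hl : ∀ i ∈ l, ∃ r, c i (e * r * e) e ∧ v r ≠ 1) :
    ∀ g, ∃ r, (∀ i ∈ l, c i (e * r * e) e) ∧ v r = g := by
  have key : ∃ (d : Con R) (hd : c0 ≤ d), (∀ i ∈ l, d ≤ c i) ∧ nsub h d hd = ⊤ := by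
    induction l with
    | nil =>
      refine ⟨⊤, le_top, by simp, ?_⟩
      rw [eq_top_iff]
      intro g _
      obtain ⟨r, rfl⟩ := hv g
      exact ⟨r, trivial, rfl⟩
    | cons i l ih =>
      obtain ⟨d, hd, h1, h2⟩ := ih (fun j hj => hc j (by simp [hj])) (fun j hj => hl j (by simp [hj]))
      have hci := hc i (by simp)
      obtain ⟨r, hr, hr1⟩ := hl i (by simp)
      have h3 := nsub_eq_top h hv (c i) hci (v r) hr1 ⟨r, hr, rfl⟩
      refine ⟨c i ⊓ d, le_inf hci hd, ?_, nsub_inf h hv hab (c i) d hci hd h3 h2⟩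
      intro j hj
      rcases List.mem_cons.1 hj with rfl | hj
      · exact inf_le_left
      · exact inf_le_right.trans (h1 j hj)
  obtain ⟨d, hd, h1, h2⟩ := key
  intro g
  have hg : g ∈ nsub h d hd := by rw [h2]; trivial
  obtain ⟨r, hr, hvr⟩ := hg
  exact ⟨r, fun i hi => h1 i hi hr, hvr⟩

end

end Pool.Agent.H643R2.BX
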