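import Pool.Agent.H643R2.BX.Syn

/-! # Bifix stars and powers of words -/

namespace Pool.Agent.H643R2.BX

open Pool.Agent.H643R2.SH

variable {α : Type}

/-- A bifix code: a set of nonempty words none of which is a proper prefix or a proper suffix of
another. -/
def IsBifix (K : Language α) : Prop :=
  [] ∉ K ∧ (∀ u v : List α, u ∈ K → u ++ v ∈ K → v = []) ∧
    (∀ u v : List α, v ∈ K → u ++ v ∈ K → u = [])

/-- In the expression the star is only applied to subexpressions that denote bifix codes. -/
def BifixStars : GRE α → Prop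
  | .zero => True
  | .one => True
  | .char _ => True
  | .union E F => BifixStars E ∧ BifixStars F
  | .inter E F => BifixStars E ∧ BifixStars F
  | .cat E F => BifixStars E ∧ BifixStars F
  | .compl E => BifixStars E
  | .star E => BifixStars E ∧ IsBifix E.lang

/-- the bodies of the outermost stars -/
def stars : GRE α → List (GRE α)
  | .zero => []
  | .one => []
  | .char _ => []
  | .union E F => stars E ++ stars F
  | .inter E F => stars E ++ stars F
  | .cat E F => stars E ++ stars F
  | .compl E => stars E
  | .star E => [E]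

theorem stars_height {E : GRE α} {h : ℕ} (hE : E.height ≤ h + 1) :
    ∀ F ∈ stars E, F.height ≤ h := by
  induction E with
  | zero => simp [stars]
  | one => simp [stars]
  | char a => simp [stars]
  | union E F h1 h2 =>
    simp only [GRE.height, max_le_iff] at hE
    intro G hG
    rcases List.mem_append.1 hG with hG | hG
    · exact h1 hE.1 G hG
    · exact h2 hE.2 G hG
  | inter E F h1 h2 =>
    simp only [GRE.height, max_le_iff] at hE
    intro G hG
    rcases List.mem_append.1 hG with hG | hG
    · exact h1 hE.1 G hG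
    · exact h2 hE.2 G hG
  | cat E F h1 h2 =>
    simp only [GRE.height, max_le_iff] at hE
    intro G hG
    rcases List.mem_append.1 hG with hG | hG
    · exact h1 hE.1 G hG
    · exact h2 hE.2 G hG
  | compl E h1 => exact h1 hE
  | star E h1 =>
    intro G hG
    simp only [stars, List.mem_singleton] at hG
    subst hG
    simp only [GRE.height] at hE
    omega

theorem stars_zero {E : GRE α} (hE : E.height ≤ 0) : stars E = [] := by
  induction E with
  | zero => rfl
  | one => rfl
  | char a => rfl
  | union E F h1 h2 =>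
    simp only [GRE.height, max_le_iff] at hE
    simp [stars, h1 hE.1, h2 hE.2]
  | inter E F h1 h2 =>
    simp only [GRE.height, max_le_iff] at hE
    simp [stars, h1 hE.1, h2 hE.2]
  | cat E F h1 h2 =>
    simp only [GRE.height, max_le_iff] at hE
    simp [stars, h1 hE.1, h2 hE.2]
  | compl E h1 => exact h1 hE
  | star E h1 =>
    simp only [GRE.height] at hE
    omega

theorem stars_bifix {E : GRE α} (hE : BifixStars E) :
    ∀ F ∈ stars E, BifixStars F ∧ IsBifix F.lang := by
  induction E with
  | zero => simp [stars]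
  | one => simp [stars]
  | char a => simp [stars]
  | union E F h1 h2 =>
    intro G hG
    rcases List.mem_append.1 hG with hG | hG
    · exact h1 hE.1 G hG
    · exact h2 hE.2 G hG
  | inter E F h1 h2 =>
    intro G hG
    rcases List.mem_append.1 hG with hG | hG
    · exact h1 hE.1 G hG
    · exact h2 hE.2 G hG
  | cat E F h1 h2 =>
    intro G hG
    rcases List.mem_append.1 hG with hG | hG
    · exact h1 hE.1 G hG
    · exact h2 hE.2 G hG
  | compl E h1 => exact h1 hE
  | star E h1 =>
    intro G hG
    simp only [stars, List.mem_singleton] at hG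
    subst hG
    exact hE

/-! ### Powers of words -/

/-- `w` repeated `m` times -/
def pw (w : List α) (m : ℕ) : List α := (List.replicate m w).flatten

@[simp] theorem pw_zero (w : List α) : pw w 0 = [] := rfl

theorem pw_succ (w : List α) (m : ℕ) : pw w (m + 1) = w ++ pw w m := by
  simp [pw, List.replicate_succ]

theorem pw_one (w : List α) : pw w 1 = w := by simp [pw]

theorem pw_add (w : List α) (i j : ℕ) : pw w (i + j) = pw w i ++ pw w j := by
  unfold pw
  rw [List.replicate_add, List.flatten_append]

theorem pw_succ' (w : List α) (m : ℕ) : pw w (m + 1) = pw w m ++ w := by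
  rw [pw_add, pw_one]

theorem pw_nil (m : ℕ) : pw ([] : List α) m = [] := by
  induction m with
  | zero => rfl
  | succ m ih => rw [pw_succ, ih]; rfl

theorem length_pw (w : List α) (m : ℕ) : (pw w m).length = m * w.length := by
  induction m with
  | zero => simp
  | succ m ih => rw [pw_succ, List.length_append, ih]; ring

/-- a cut inside a power -/
theorem pw_split (w : List α) (m : ℕ) (p r : List α) (h : pw w (m + 1) = p ++ r) :
    ∃ i j w1 w2, w = w1 ++ w2 ∧ i + j = m ∧ p = pw w i ++ w1 ∧ r = w2 ++ pw w j := by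
  induction m generalizing p with
  | zero =>
    rw [pw_one] at h
    exact ⟨0, 0, p, r, h, rfl, by simp, by simp⟩
  | succ m ih =>
    rw [pw_succ] at h
    rcases List.append_eq_append_iff.1 h with ⟨c, hc1, hc2⟩ | ⟨c, hc1, hc2⟩
    · -- p = w ++ c, pw w (m+1) = c ++ r
      obtain ⟨i, j, w1, w2, e1, e2, e3, e4⟩ := ih c hc2
      refine ⟨i + 1, j, w1, w2, e1, by omega, ?_, e4⟩
      rw [hc1, e3, pw_succ, List.append_assoc]
    · -- w = p ++ c, r = c ++ pw
      exact ⟨0, m + 1, p, c, hc1, by omega, by simp, hc2⟩

theorem pw_se {L : Language α} {w : List α} (h : SE L (w ++ w) w) :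
    ∀ m : ℕ, 1 ≤ m → SE L (pw w m) w := by
  intro m hm
  induction m, hm using Nat.le_induction with
  | base => rw [pw_one]; exact SE.refl _ _
  | succ m hm ih =>
    rw [pw_succ]
    exact (ih.left w).trans h

/-! ### Eventual constancy of the powers -/

/-- the powers of a word are eventually constant -/
def Apr (L : Language α) (w : List α) (N : ℕ) : Prop :=
  ∀ m, N ≤ m → SE L (pw w m) (pw w (m + 1))

theorem Apr.mono {L : Language α} {w : List α} {N N' : ℕ} (h : Apr L w N) (hN : N ≤ N') :
    Apr L w N' := fun m hm => h m (hN.trans hm)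

theorem Apr.zero (w : List α) : Apr (0 : Language α) w 0 := by
  intro m _ s t
  simp [Language.notMem_zero]

theorem Apr.one (w : List α) : Apr (1 : Language α) w 1 := by
  intro m hm s t
  by_cases hw : w = []
  · subst hw; rw [pw_nil, pw_nil]
  · have h1 : pw w m ≠ [] := by
      intro h
      have := congrArg List.length h
      rw [length_pw] at this
      have h2 : 0 < w.length := List.length_pos_iff.2 hw
      have h3 : 0 < m * w.length := Nat.mul_pos (by omega) h2
      rw [this] at h3
      simp at h3
    have h2 : pw w (m + 1) ≠ [] := by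
      rw [pw_succ]
      intro h
      exact hw (List.append_eq_nil_iff.1 h).1
    simp [Language.mem_one, h1, h2]

theorem Apr.char (a : α) (w : List α) : Apr ({[a]} : Language α) w 2 := by
  intro m hm s t
  by_cases hw : w = []
  · subst hw; rw [pw_nil, pw_nil]
  · have h2 : 0 < w.length := List.length_pos_iff.2 hw
    have key : ∀ m, 2 ≤ m → s ++ pw w m ++ t ∉ ({[a]} : Language α) := by
      intro m hm h
      have h1 : s ++ pw w m ++ t = [a] := h
      have := congrArg List.length h1
      simp only [List.length_append, length_pw, List.length_singleton] at this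
      have h3 : 2 * 1 ≤ m * w.length := Nat.mul_le_mul hm h2
      omega
    exact iff_of_false (key m hm) (key (m + 1) (by omega))

theorem Apr.compl {L : Language α} {w : List α} {N : ℕ} (h : Apr L w N) : Apr Lᶜ w N :=
  fun m hm s t => not_congr (h m hm s t)

theorem Apr.sup {L K : Language α} {w : List α} {N : ℕ} (h : Apr L w N) (h' : Apr K w N) :
    Apr (L ⊔ K) w N :=
  fun m hm s t => or_congr (h m hm s t) (h' m hm s t)

theorem Apr.inf {L K : Language α} {w : List α} {N : ℕ} (h : Apr L w N) (h' : Apr K w N) :
    Apr (L ⊓ K) w N :=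
  fun m hm s t => and_congr (h m hm s t) (h' m hm s t)

/-- splitting `s ++ x ++ t = p ++ q` -/
theorem split3 {s x t p q : List α} (h : s ++ x ++ t = p ++ q) :
    (∃ s', s = p ++ s' ∧ q = s' ++ x ++ t) ∨
    (∃ c r, x = c ++ r ∧ p = s ++ c ∧ q = r ++ t) ∨
    (∃ t', t = t' ++ q ∧ p = s ++ x ++ t') := by
  rcases List.append_eq_append_iff.1 h with ⟨c, hc1, hc2⟩ | ⟨c, hc1, hc2⟩
  · right; right
    exact ⟨c, hc2, hc1⟩
  · rcases List.append_eq_append_iff.1 hc1.symm with ⟨d, hd1, hd2⟩ | ⟨d, hd1, hd2⟩
    · left
      exact ⟨d, hd1, by rw [hc2, hd2]⟩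
    · right; left
      exact ⟨d, c, hd2, hd1, hc2⟩

theorem Apr.mul {L K : Language α} {w : List α} {N N' : ℕ} (h : Apr L w N) (h' : Apr K w N') :
    Apr (L * K) w (N + N' + 1) := by
  intro m hm s t
  constructor
  · intro hx
    rw [Language.mem_mul] at hx ⊢
    obtain ⟨p, hp, q, hq, hpq⟩ := hx
    rcases split3 hpq.symm with ⟨s', e1, e2⟩ | ⟨c, r, e1, e2, e3⟩ | ⟨t', e1, e2⟩
    · refine ⟨p, hp, s' ++ pw w (m + 1) ++ t, ?_, ?_⟩
      · rw [e2] at hq
        exact (h' m (by omega) s' t).1 hq
      · rw [e1]; simp [List.append_assoc]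
    · obtain ⟨m', rfl⟩ : ∃ m', m = m' + 1 := ⟨m - 1, by omega⟩
      obtain ⟨i, j, w1, w2, f1, f2, f3, f4⟩ := pw_split w m' c r e1
      by_cases hi : N ≤ i
      · refine ⟨s ++ pw w (i + 1) ++ w1, ?_, q, hq, ?_⟩
        · have := (h i hi s w1).1
          apply this
          rw [e2, f3] at hp
          rwa [List.append_assoc]
        · rw [e3, f4]
          have : pw w (m' + 1 + 1) = pw w (i + 1) ++ (w1 ++ w2 ++ pw w j) := by
            rw [← f1, ← pw_succ, ← pw_add]
            congr 1; omega
          rw [this]; simp [List.append_assoc]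
      · refine ⟨p, hp, w2 ++ pw w (j + 1) ++ t, ?_, ?_⟩
        · have := (h' j (by omega) w2 t).1
          apply this
          rw [e3, f4] at hq
          exact hq
        · rw [e2, f3]
          have : pw w (m' + 1 + 1) = pw w i ++ (w1 ++ w2 ++ pw w (j + 1)) := by
            rw [← f1, ← pw_succ, ← pw_add]
            congr 1; omega
          rw [this]; simp [List.append_assoc]
    · refine ⟨s ++ pw w (m + 1) ++ t', ?_, q, hq, ?_⟩
      · rw [e2] at hp
        exact (h m (by omega) s t').1 hp
      · rw [e1]; simp [List.append_assoc]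
  · intro hx
    rw [Language.mem_mul] at hx ⊢
    obtain ⟨p, hp, q, hq, hpq⟩ := hx
    rcases split3 hpq.symm with ⟨s', e1, e2⟩ | ⟨c, r, e1, e2, e3⟩ | ⟨t', e1, e2⟩
    · refine ⟨p, hp, s' ++ pw w m ++ t, ?_, ?_⟩
      · rw [e2] at hq
        exact (h' m (by omega) s' t).2 hq
      · rw [e1]; simp [List.append_assoc]
    · obtain ⟨i, j, w1, w2, f1, f2, f3, f4⟩ := pw_split w m c r e1
      by_cases hi : N + 1 ≤ i
      · obtain ⟨i', rfl⟩ : ∃ i', i = i' + 1 := ⟨i - 1, by omega⟩
        refine ⟨s ++ pw w i' ++ w1, ?_, q, hq, ?_⟩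
        · have := (h i' (by omega) s w1).2
          apply this
          rw [e2, f3] at hp
          rwa [List.append_assoc]
        · rw [e3, f4]
          have : pw w m = pw w i' ++ (w1 ++ w2 ++ pw w j) := by
            rw [← f1, ← pw_succ, ← pw_add]
            congr 1; omega
          rw [this]; simp [List.append_assoc]
      · obtain ⟨j', rfl⟩ : ∃ j', j = j' + 1 := ⟨j - 1, by omega⟩
        refine ⟨p, hp, w2 ++ pw w j' ++ t, ?_, ?_⟩
        · have := (h' j' (by omega) w2 t).2
          apply this
          rw [e3, f4] at hq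
          exact hq
        · rw [e2, f3]
          have : pw w m = pw w i ++ (w1 ++ w2 ++ pw w j') := by
            rw [← f1, ← pw_succ, ← pw_add]
            congr 1; omega
          rw [this]; simp [List.append_assoc]
    · refine ⟨s ++ pw w m ++ t', ?_, q, hq, ?_⟩
      · rw [e2] at hp
        exact (h m (by omega) s t').2 hp
      · rw [e1]; simp [List.append_assoc]

/-- The property of languages of bounded height. -/
theorem apr_of_stars (E : GRE α) :
    ∃ N : ℕ, ∀ w : List α, (∀ F ∈ stars E, SE (KStar.kstar F.lang) (w ++ w) w) →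
      Apr E.lang w N := by
  induction E with
  | zero => exact ⟨0, fun w _ => Apr.zero w⟩
  | one => exact ⟨1, fun w _ => Apr.one w⟩
  | char a => exact ⟨2, fun w _ => Apr.char a w⟩
  | union E F h1 h2 =>
    obtain ⟨N, h1⟩ := h1
    obtain ⟨N', h2⟩ := h2
    refine ⟨max N N', fun w hw => Apr.sup ?_ ?_⟩
    · exact (h1 w fun F hF => hw F (List.mem_append.2 (Or.inl hF))).mono (le_max_left _ _)
    · exact (h2 w fun F hF => hw F (List.mem_append.2 (Or.inr hF))).mono (le_max_right _ _)
  | inter E F h1 h2 =>
    obtain ⟨N, h1⟩ := h1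
    obtain ⟨N', h2⟩ := h2
    refine ⟨max N N', fun w hw => Apr.inf ?_ ?_⟩
    · exact (h1 w fun F hF => hw F (List.mem_append.2 (Or.inl hF))).mono (le_max_left _ _)
    · exact (h2 w fun F hF => hw F (List.mem_append.2 (Or.inr hF))).mono (le_max_right _ _)
  | cat E F h1 h2 =>
    obtain ⟨N, h1⟩ := h1
    obtain ⟨N', h2⟩ := h2
    refine ⟨N + N' + 1, fun w hw => Apr.mul ?_ ?_⟩
    · exact h1 w fun F hF => hw F (List.mem_append.2 (Or.inl hF))
    · exact h2 w fun F hF => hw F (List.mem_append.2 (Or.inr hF))
  | compl E h1 =>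
    obtain ⟨N, h1⟩ := h1
    exact ⟨N, fun w hw => (h1 w hw).compl⟩
  | star E h1 =>
    refine ⟨1, fun w hw m hm => ?_⟩
    have h := hw E (by simp [stars])
    exact (pw_se h m hm).trans (pw_se h (m + 1) (by omega)).symm

end Pool.Agent.H643R2.BX
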