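import Pool.Agent.H643R2.BX.Per
import Pool.Agent.H643R2.BX.Mon

/-! # Bifix codes: the main combinatorial step -/

namespace Pool.Agent.H643R2.BX

open Pool.Agent.H643R2.SH

variable {α : Type}

theorem left_unitary {K : Language α} (hK : IsBifix K) {u v : List α}
    (hu : u ∈ KStar.kstar K) (h : u ++ v ∈ KStar.kstar K) : v ∈ KStar.kstar K := by
  rw [Language.mem_kstar] at hu
  obtain ⟨l, rfl, hl⟩ := hu
  induction l with
  | nil => simpa using h
  | cons k l ih =>
    apply ih (fun y hy => hl y (by simp [hy]))
    rw [List.flatten_cons, List.append_assoc] at h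
    rw [Language.mem_kstar] at h
    obtain ⟨m, hm, hmK⟩ := h
    have hk : k ∈ K := hl k (by simp)
    cases m with
    | nil =>
      simp only [List.flatten_nil, List.append_eq_nil_iff] at hm
      rw [hm.1] at hk
      exact absurd hk hK.1
    | cons k' m =>
      rw [List.flatten_cons] at hm
      have hk' : k' ∈ K := hmK k' (by simp)
      have : k' = k := by
        rcases List.append_eq_append_iff.1 hm with ⟨c, hc1, hc2⟩ | ⟨c, hc1, hc2⟩
        · have := hK.2.1 k c hk (hc1 ▸ hk')
          rw [hc1, this, List.append_nil]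
        · have := hK.2.1 k' c hk' (hc1 ▸ hk)
          rw [hc1, this, List.append_nil]
      subst this
      have h2 := List.append_cancel_left hm
      rw [h2, Language.mem_kstar]
      exact ⟨m, rfl, fun y hy => hmK y (by simp [hy])⟩

theorem IsBifix.reverse {K : Language α} (hK : IsBifix K) : IsBifix K.reverse := by
  refine ⟨?_, ?_, ?_⟩
  · intro h
    rw [Language.mem_reverse] at h
    exact hK.1 (by simpa using h)
  · intro u v hu h
    rw [Language.mem_reverse] at hu h
    rw [List.reverse_append] at h
    have := hK.2.2 v.reverse u.reverse hu h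
    simpa using this
  · intro u v hv h
    rw [Language.mem_reverse] at hv h
    rw [List.reverse_append] at h
    have := hK.2.1 v.reverse u.reverse hv h
    simpa using this

theorem right_unitary {K : Language α} (hK : IsBifix K) {u v : List α}
    (hv : v ∈ KStar.kstar K) (h : u ++ v ∈ KStar.kstar K) : u ∈ KStar.kstar K := by
  have h1 : v.reverse ∈ KStar.kstar K.reverse := by
    rw [← Language.reverse_kstar, Language.mem_reverse, List.reverse_reverse]
    exact hv
  have h2 : v.reverse ++ u.reverse ∈ KStar.kstar K.reverse := by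
    rw [← Language.reverse_kstar, Language.mem_reverse, ← List.reverse_append,
      List.reverse_reverse]
    exact h
  have h3 := left_unitary hK.reverse h1 h2
  rw [← Language.reverse_kstar, Language.mem_reverse, List.reverse_reverse] at h3
  exact h3

/-- some cut of `K*` falls in `w` after the context `s` -/
def Hit (K : Language α) (s w : List α) : Prop :=
  ∃ w1 w2 : List α, w = w1 ++ w2 ∧ s ++ w1 ∈ KStar.kstar K

theorem cover {K : Language α} {s w t : List α} (h : s ++ w ++ t ∈ KStar.kstar K)
    (hn : ¬ Hit K s w) :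
    ∃ s1 s2 t1 t2, s = s1 ++ s2 ∧ t = t1 ++ t2 ∧ s1 ∈ KStar.kstar K ∧ s2 ++ w ++ t1 ∈ K ∧
      t2 ∈ KStar.kstar K := by
  rw [List.append_assoc] at h
  rcases star_split h with ⟨h1, _⟩ | ⟨u1, u2, a1, a2, e1, e2, e3, e4, e5⟩
  · exact absurd ⟨[], w, by simp, by simpa using h1⟩ hn
  · rcases List.append_eq_append_iff.1 e2 with ⟨c, hc1, hc2⟩ | ⟨c, hc1, hc2⟩
    · -- a1 = w ++ c, t = c ++ a2
      exact ⟨u1, u2, c, a2, e1, hc2, e3, by rw [List.append_assoc, ← hc1]; exact e4, e5⟩
    · -- w = a1 ++ c
      exfalso
      apply hn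
      refine ⟨a1, c, hc1, ?_⟩
      rw [e1, List.append_assoc]
      exact star_append e3 (star_base e4)

theorem nonhit_mem {K : Language α} {s w w' t : List α} (hw : SE K w w')
    (hn : ¬ Hit K s w) (h : s ++ w ++ t ∈ KStar.kstar K) : s ++ w' ++ t ∈ KStar.kstar K := by
  obtain ⟨s1, s2, t1, t2, e1, e2, e3, e4, e5⟩ := cover h hn
  have h1 : s2 ++ w' ++ t1 ∈ K := (hw s2 t1).1 e4
  have : s ++ w' ++ t = s1 ++ ((s2 ++ w' ++ t1) ++ t2) := by
    rw [e1, e2]; simp [List.append_assoc]
  rw [this]
  exact star_append e3 (star_append (star_base h1) e5)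

theorem nonhit_iff {K : Language α} (hK : IsBifix K) {s w w' : List α} (hw : SE K w w')
    (hn : ¬ Hit K s w) (h : ∃ t, s ++ w ++ t ∈ KStar.kstar K) : ¬ Hit K s w' := by
  obtain ⟨t, ht⟩ := h
  obtain ⟨s1, s2, t1, t2, e1, e2, e3, e4, e5⟩ := cover ht hn
  have h1 : s2 ++ w' ++ t1 ∈ K := (hw s2 t1).1 e4
  rintro ⟨w1, w2, f1, f2⟩
  rw [e1, List.append_assoc] at f2
  have f3 := left_unitary hK e3 f2
  rw [Language.mem_kstar] at f3
  obtain ⟨l, hl, hlK⟩ := f3
  cases l with
  | nil =>
    simp only [List.flatten_nil, List.append_eq_nil_iff] at hl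
    apply hn
    refine ⟨[], w, by simp, ?_⟩
    rw [e1, hl.1]
    simpa using e3
  | cons k l =>
    rw [List.flatten_cons] at hl
    have hk : k ∈ K := hlK k (by simp)
    have h2 : s2 ++ w' ++ t1 = k ++ (l.flatten ++ (w2 ++ t1)) := by
      rw [f1]
      have : s2 ++ (w1 ++ w2) ++ t1 = (s2 ++ w1) ++ (w2 ++ t1) := by simp [List.append_assoc]
      rw [this, hl]
      simp [List.append_assoc]
    rw [h2] at h1
    have h3 := hK.2.1 k _ hk h1
    simp only [List.append_eq_nil_iff] at h3
    apply hn
    refine ⟨w, [], by simp, ?_⟩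
    have h4 : s2 ++ w ∈ K := by
      have := e4
      rw [h3.2.2, List.append_nil] at this
      exact this
    rw [e1, List.append_assoc]
    exact star_append e3 (star_base h4)

theorem nonhit_re {K : Language α} (hK : IsBifix K) {s w w' : List α} (hw : SE K w w')
    (hn : ¬ Hit K s w) (h : ∃ t, s ++ w ++ t ∈ KStar.kstar K) :
    RE (KStar.kstar K) (s ++ w) (s ++ w') := by
  intro t
  exact ⟨nonhit_mem hw hn, nonhit_mem hw.symm (nonhit_iff hK hw hn h)⟩

/-- after a cut inside `w` the state is that of a suffix of `w` -/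
theorem hit_re {K : Language α} (hK : IsBifix K) {s w1 w2 : List α}
    (h : s ++ w1 ∈ KStar.kstar K) : RE (KStar.kstar K) (s ++ (w1 ++ w2)) w2 := by
  intro t
  have : s ++ (w1 ++ w2) ++ t = (s ++ w1) ++ (w2 ++ t) := by simp [List.append_assoc]
  rw [this]
  exact ⟨left_unitary hK h, star_append h⟩

theorem suffix_re {K : Language α} (hK : IsBifix K) {c w t : List α}
    (h1 : c ++ w ++ t ∈ KStar.kstar K) (h2 : w ++ t ∈ KStar.kstar K) :
    RE (KStar.kstar K) (c ++ w) w := by
  rw [List.append_assoc] at h1
  have h3 := right_unitary hK h2 h1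
  intro t'
  rw [List.append_assoc]
  exact ⟨left_unitary hK h3, star_append h3⟩

/-- The main combinatorial step: a bifix code cannot measure block values which depend on the
inner values in a non-affine way. -/
theorem bifix_step {K : Language α} (hK : IsBifix K)
    {G' G : Type} [Group G'] [Group G]
    (V' : List α → G' → Prop) (V : List α → G → Prop) (f : G' → G) (a b : List α)
    (mul' : ∀ {u v g h}, V' u g → V' v h → V' (u ++ v) (g * h))
    (mul : ∀ {u v g h}, V u g → V v h → V (u ++ v) (g * h))
    (blk : ∀ {W k}, V' W k → V (a ++ W ++ b) (f k))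
    (e : List α) (he1 : V e 1)
    (inv : ∀ x g, V x g → ∃ y, V y g⁻¹ ∧ SE (KStar.kstar K) (e ++ x ++ e ++ y ++ e) e ∧
      SE (KStar.kstar K) (e ++ y ++ e ++ x ++ e) e)
    (W : Set (List α)) (hWc : ∀ x ∈ W, ∀ y ∈ W, x ++ y ∈ W)
    (hWs : ∀ k, ∃ x ∈ W, V' x k)
    (hWK : ∀ x ∈ W, ∀ y ∈ W, SE K x y)
    (w : List α) (hw : w ∈ W) (hw1 : V' w 1) (hww : SE (KStar.kstar K) (w ++ w) w)
    (hwp : ∀ x ∈ W, ∃ k, 0 < k ∧ SE (KStar.kstar K) (pw (w ++ x ++ w) k) w)
    (hyp : ∀ u g, V u g → SE (KStar.kstar K) (e ++ u ++ e) e → g = 1) :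
    ∀ y u : G', (f 1)⁻¹ * f u = (f y)⁻¹ * f (y * u) := by
  intro y u
  set L : Language α := KStar.kstar K with hL
  obtain ⟨Y, hY, hVY⟩ := hWs y
  obtain ⟨X, hX, hVX⟩ := hWs u
  have v1 : V (a ++ w ++ b) (f 1) := blk hw1
  have vX : V (a ++ (w ++ X ++ w) ++ b) (f u) := by
    have := blk (mul' (mul' hw1 hVX) hw1)
    simpa using this
  have vY : V (a ++ (w ++ Y ++ w) ++ b) (f y) := by
    have := blk (mul' (mul' hw1 hVY) hw1)
    simpa using this
  have vYX : V (a ++ (w ++ Y ++ w ++ X ++ w) ++ b) (f (y * u)) := by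
    have := blk (mul' (mul' (mul' (mul' hw1 hVY) hw1) hVX) hw1)
    simpa using this
  obtain ⟨y1, hy1, i1, i1'⟩ := inv _ _ v1
  obtain ⟨yY, hyY, i2, i2'⟩ := inv _ _ vY
  -- the two words act in the same way
  have main : SE L (e ++ (y1 ++ e ++ (a ++ (w ++ X ++ w) ++ b)) ++ e)
      (e ++ (yY ++ e ++ (a ++ (w ++ Y ++ w ++ X ++ w) ++ b)) ++ e) := by
    intro s t
    set s1 := s ++ e ++ y1 ++ e with hs1
    set s2 := s ++ e ++ yY ++ e with hs2
    have H1 : RE L (s1 ++ (a ++ w ++ b) ++ e) (s ++ e) := by
      have := i1'.re s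
      simpa [hs1, List.append_assoc] using this
    have H2 : RE L (s2 ++ (a ++ (w ++ Y ++ w) ++ b) ++ e) (s ++ e) := by
      have := i2'.re s
      simpa [hs2, List.append_assoc] using this
    by_cases hq : ∃ t0, s ++ e ++ t0 ∈ L
    swap
    · apply iff_of_false
      · intro h
        apply hq
        refine ⟨y1 ++ e ++ (a ++ (w ++ X ++ w) ++ b) ++ e ++ t, ?_⟩
        simpa [List.append_assoc] using h
      · intro h
        apply hq
        refine ⟨yY ++ e ++ (a ++ (w ++ Y ++ w ++ X ++ w) ++ b) ++ e ++ t, ?_⟩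
        simpa [List.append_assoc] using h
    obtain ⟨t0, ht0⟩ := hq
    set r1 := s1 ++ a ++ w with hr1
    set r2 := s2 ++ a ++ (w ++ Y ++ w) with hr2
    have m1 : r1 ++ (b ++ e ++ t0) ∈ L := by
      have := (H1 t0).2 ht0
      simpa [hr1, List.append_assoc] using this
    have m2 : r2 ++ (b ++ e ++ t0) ∈ L := by
      have := (H2 t0).2 ht0
      simpa [hr2, List.append_assoc] using this
    have R1 : RE L (r1 ++ w) r1 := by
      have := hww.re (s1 ++ a)
      simpa [hr1, List.append_assoc] using this
    have R2 : RE L (r2 ++ w) r2 := by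
      have := hww.re (s2 ++ a ++ (w ++ Y))
      simpa [hr2, List.append_assoc] using this
    have N1 : ¬ Hit K r1 w → ∀ Z ∈ W, RE L (r1 ++ Z) r1 := by
      intro hn Z hZ
      have h1 := nonhit_re hK (hWK w hw Z hZ) hn ⟨b ++ e ++ t0, (R1 _).2 m1⟩
      exact h1.symm.trans R1
    have N2 : ¬ Hit K r2 w → ∀ Z ∈ W, RE L (r2 ++ Z) r2 := by
      intro hn Z hZ
      have h1 := nonhit_re hK (hWK w hw Z hZ) hn ⟨b ++ e ++ t0, (R2 _).2 m2⟩
      exact h1.symm.trans R2
    -- it suffices to compare `r1` and `r2`
    have suff : RE L (r1 ++ (X ++ w) ++ (b ++ e)) (r2 ++ (X ++ w) ++ (b ++ e)) := by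
      have fin : RE L r1 r2 → RE L (r1 ++ (X ++ w) ++ (b ++ e)) (r2 ++ (X ++ w) ++ (b ++ e)) :=
        fun h => (h.right _).right _
      by_cases c1 : Hit K r1 w
      · by_cases c2 : Hit K r2 w
        · -- both are cut inside `w`
          apply fin
          obtain ⟨w1, w2, e1, f1⟩ := c1
          obtain ⟨w1', w2', e1', f1'⟩ := c2
          have g1 : RE L r1 w2 := by
            have := hit_re hK (w2 := w2) f1
            rw [← e1] at this
            exact R1.symm.trans this
          have g2 : RE L r2 w2' := by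
            have := hit_re hK (w2 := w2') f1'
            rw [← e1'] at this
            exact R2.symm.trans this
          have n1 : w2 ++ (b ++ e ++ t0) ∈ L := (g1 _).1 m1
          have n2 : w2' ++ (b ++ e ++ t0) ∈ L := (g2 _).1 m2
          rcases List.append_eq_append_iff.1 (e1.symm.trans e1') with ⟨c, hc1, hc2⟩ | ⟨c, hc1, hc2⟩
          · -- w2 = c ++ w2'
            have : RE L w2 w2' := by
              rw [hc2]
              apply suffix_re hK (t := b ++ e ++ t0) _ n2
              rw [← hc2]; exact n1
            exact g1.trans (this.trans g2.symm)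
          · have : RE L w2' w2 := by
              rw [hc2]
              apply suffix_re hK (t := b ++ e ++ t0) _ n1
              rw [← hc2]; exact n2
            exact g1.trans (this.symm.trans g2.symm)
        · -- `r2` is not cut
          apply fin
          have n2 := N2 c2
          obtain ⟨k, hk, hk'⟩ := hwp Y hY
          obtain ⟨k, rfl⟩ : ∃ k', k = k' + 1 := ⟨k - 1, by omega⟩
          have hYW : w ++ Y ++ w ∈ W := hWc _ (hWc _ hw _ hY) _ hw
          have q1 : RE L (r2 ++ pw (w ++ Y ++ w) k) r2 := by
            cases k with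
            | zero => simpa using RE.refl L r2
            | succ k =>
              apply n2
              clear hk hk'
              induction k with
              | zero => rw [pw_one]; exact hYW
              | succ k ih => rw [pw_succ]; exact hWc _ hYW _ ih
          have q2 : RE L (s2 ++ a ++ w) r2 := by
            have h1 := hk'.re (s2 ++ a)
            rw [pw_succ] at h1
            have h2 : RE L (s2 ++ a ++ (w ++ Y ++ w ++ pw (w ++ Y ++ w) k)) r2 := by
              simpa [hr2, List.append_assoc] using q1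
            exact h1.symm.trans h2
          have q3 : RE L (s ++ e) (s2 ++ (a ++ w ++ b) ++ e) := by
            have h1 : RE L (s2 ++ a ++ w ++ (b ++ e)) (r2 ++ (b ++ e)) := q2.right _
            have h2 : RE L (r2 ++ (b ++ e)) (s ++ e) := by
              simpa [hr2, List.append_assoc] using H2
            have h3 := (h1.trans h2).symm
            simpa [List.append_assoc] using h3
          have q4 : RE L s1 s2 := by
            have h1 := (q3.right y1).right e
            have h2 : RE L (s2 ++ (a ++ w ++ b) ++ e ++ y1 ++ e) s2 := by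
              have := i1.re (s ++ e ++ yY)
              simpa [hs2, List.append_assoc] using this
            exact h1.trans h2
          exact ((q4.right a).right w).trans q2
      · by_cases c2 : Hit K r2 w
        · -- `r1` is not cut
          apply fin
          have n1 := N1 c1 (Y ++ w) (hWc _ hY _ hw)
          have q3 : RE L (s ++ e) (s1 ++ (a ++ (w ++ Y ++ w) ++ b) ++ e) := by
            have h1 : RE L (r1 ++ (Y ++ w) ++ (b ++ e)) (r1 ++ (b ++ e)) := n1.right _
            have h2 : RE L (r1 ++ (b ++ e)) (s ++ e) := by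
              simpa [hr1, List.append_assoc] using H1
            have h3 := (h1.trans h2).symm
            simpa [hr1, List.append_assoc] using h3
          have q4 : RE L s2 s1 := by
            have h1 := (q3.right yY).right e
            have h2 : RE L (s1 ++ (a ++ (w ++ Y ++ w) ++ b) ++ e ++ yY ++ e) s1 := by
              have := i2.re (s ++ e ++ y1)
              simpa [hs1, List.append_assoc] using this
            exact h1.trans h2
          have q5 : RE L r2 (s1 ++ a ++ (w ++ Y ++ w)) := (q4.right a).right _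
          have q6 : RE L (s1 ++ a ++ (w ++ Y ++ w)) r1 := by
            simpa [hr1, List.append_assoc] using n1
          exact (q5.trans q6).symm
        · -- neither is cut
          have hZ : X ++ w ∈ W := hWc _ hX _ hw
          have n1 := (N1 c1 _ hZ).right (b ++ e)
          have n2 := (N2 c2 _ hZ).right (b ++ e)
          have h1 : RE L (r1 ++ (b ++ e)) (s ++ e) := by
            simpa [hr1, List.append_assoc] using H1
          have h2 : RE L (r2 ++ (b ++ e)) (s ++ e) := by
            simpa [hr2, List.append_assoc] using H2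
          exact n1.trans (h1.trans (h2.symm.trans n2.symm))
    have := suff t
    simpa [hr1, hr2, hs1, hs2, List.append_assoc] using this
  -- conclusion
  have vA : V (y1 ++ e ++ (a ++ (w ++ X ++ w) ++ b)) ((f 1)⁻¹ * f u) := by
    have := mul (mul hy1 he1) vX
    simpa using this
  have vB : V (yY ++ e ++ (a ++ (w ++ Y ++ w ++ X ++ w) ++ b)) ((f y)⁻¹ * f (y * u)) := by
    have := mul (mul hyY he1) vYX
    simpa using this
  obtain ⟨z, hz, j1, j2⟩ := inv _ _ vA
  have vC := mul (mul hz he1) vB
  have hC := hyp _ _ vC (by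
    have h1 := (main.left (e ++ z)).symm
    have h2 : SE L (e ++ z ++ (e ++ (y1 ++ e ++ (a ++ (w ++ X ++ w) ++ b)) ++ e)) e := by
      simpa [List.append_assoc] using j2
    have h3 := h1.trans h2
    simpa [List.append_assoc] using h3)
  rw [mul_one] at hC
  exact (inv_mul_eq_one.1 hC)

end Pool.Agent.H643R2.BX
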