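import Pool.Agent.H643R2.BX.Cod

/-! # The witness languages -/

namespace Pool.Agent.H643R2.BX

open Pool.Agent.H643R2.SH

/-! ### balanced words -/

/-- number of letters `0` minus number of letters `1` -/
def wt : List (Fin 2) → ℤ
  | [] => 0
  | c :: w => (if c = 0 then 1 else -1) + wt w

theorem wt_append (u v : List (Fin 2)) : wt (u ++ v) = wt u + wt v := by
  induction u with
  | nil => simp [wt]
  | cons c u ih => simp only [List.cons_append, wt, ih, add_assoc]

/-- balanced words with unique values -/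
structure Good {K : Type} (V : List (Fin 2) → K → Prop) : Prop where
  wt0 : ∀ w k, V w k → wt w = 0
  pos : ∀ w k, V w k → ∀ p s, w = p ++ s → 0 ≤ wt p
  fn : ∀ w k k', V w k → V w k' → k = k'

variable {K G : Type} [Group G]

set_option linter.unusedSectionVars false

/-- blocks: a word of `V` between brackets -/
def IsBlk (V : List (Fin 2) → K → Prop) (f : K → G) (w : List (Fin 2)) (g : G) : Prop :=
  ∃ u k, V u k ∧ w = [0] ++ u ++ [1] ∧ g = f k

variable {V : List (Fin 2) → K → Prop} {f : K → G}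

theorem blk_wt (hV : Good V) {w : List (Fin 2)} {g : G} (h : IsBlk V f w g) : wt w = 0 := by
  obtain ⟨u, k, hu, rfl, _⟩ := h
  have := hV.wt0 u k hu
  simp [wt_append, wt, this]

theorem blk_pos (hV : Good V) {p s : List (Fin 2)} {g : G} (h : IsBlk V f (p ++ s) g)
    (hp : p ≠ []) (hs : s ≠ []) : 1 ≤ wt p := by
  obtain ⟨u, k, hu, e, _⟩ := h
  obtain ⟨c, p, rfl⟩ := List.exists_cons_of_ne_nil hp
  obtain ⟨s', d, rfl⟩ : ∃ s' d, s = s' ++ [d] := ⟨s.dropLast, s.getLast hs,
    (List.dropLast_append_getLast hs).symm⟩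
  have e1 : c :: ((p ++ s') ++ [d]) = 0 :: (u ++ [1]) := by simpa using e
  rw [List.cons.injEq] at e1
  obtain ⟨rfl, e2⟩ := e1
  have e3 : p ++ s' = u := (List.append_inj' e2 rfl).1
  have := hV.pos u k hu p s' e3.symm
  simp only [wt, if_true]
  omega

theorem blk_ne {w : List (Fin 2)} {g : G} (h : IsBlk V f w g) : w ≠ [] := by
  obtain ⟨u, k, _, rfl, _⟩ := h
  simp

theorem gen_wt (hV : Good V) {w : List (Fin 2)} {g : G} (h : Gen (IsBlk V f) w g) :
    wt w = 0 := by
  induction h with
  | nil => rfl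
  | cons h _ ih => rw [wt_append, blk_wt hV h, ih, add_zero]

theorem blk_pos' (hV : Good V) {p s : List (Fin 2)} {g : G} (h : IsBlk V f (p ++ s) g) :
    0 ≤ wt p := by
  by_cases hp : p = []
  · subst hp; simp [wt]
  · by_cases hs : s = []
    · subst hs
      rw [List.append_nil] at h
      rw [blk_wt hV h]
    · have := blk_pos hV h hp hs
      omega

theorem gen_pos (hV : Good V) {w : List (Fin 2)} {g : G} (h : Gen (IsBlk V f) w g) :
    ∀ p s, w = p ++ s → 0 ≤ wt p := by
  induction h with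
  | nil =>
    intro p s e
    rw [(List.append_eq_nil_iff.1 e.symm).1]
    simp [wt]
  | @cons w w' g g' h h' ih =>
    intro p s e
    rcases List.append_eq_append_iff.1 e with ⟨c, hc1, hc2⟩ | ⟨c, hc1, hc2⟩
    · rw [hc1, wt_append, blk_wt hV h, zero_add]
      exact ih c s hc2
    · rw [hc1] at h
      exact blk_pos' hV h

theorem blk_code (hV : Good V) : Code (IsBlk V f) := by
  refine ⟨fun w g h => blk_ne h, ?_, ?_, ?_⟩
  · intro u v g g' h h'
    by_contra hv
    have h1 := blk_pos hV h' (blk_ne h) hv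
    have h2 := blk_wt hV h
    omega
  · rintro w g g' ⟨u, k, h1, h2, h3⟩ ⟨u', k', h1', h2', h3'⟩
    have e : u = u' := by
      rw [h2] at h2'
      simpa using h2'
    subst e
    rw [h3, h3', hV.fn _ _ _ h1 h1']
  · intro u v g g' h h'
    obtain ⟨x, hx⟩ : ∃ x, x = u ++ v := ⟨_, rfl⟩
    rw [← hx] at h
    induction h generalizing u with
    | nil =>
      rw [(List.append_eq_nil_iff.1 hx.symm).1]
      exact ⟨1, Gen.nil⟩
    | @cons w w' g1 g2 h h2 ih =>
      rcases List.append_eq_append_iff.1 hx with ⟨c, hc1, hc2⟩ | ⟨c, hc1, hc2⟩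
      · obtain ⟨g3, h3⟩ := ih c hc2
        rw [hc1]
        exact ⟨_, Gen.cons h h3⟩
      · by_cases hu : u = []
        · subst hu
          exact ⟨1, Gen.nil⟩
        · by_cases hc : c = []
          · subst hc
            rw [List.append_nil] at hc1
            subst hc1
            exact ⟨_, Gen.base h⟩
          · exfalso
            have a1 := blk_wt hV h
            rw [hc1] at h a1
            have a2 := blk_pos hV h hu hc
            rw [wt_append] at a1
            have a3 := gen_pos hV h' c w' hc2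
            omega

theorem gen_good (hV : Good V) : Good (Gen (IsBlk V f)) :=
  ⟨fun _ _ h => gen_wt hV h, fun _ _ h => gen_pos hV h,
    fun _ _ _ h h' => (blk_code hV).gen_fn h h'⟩

theorem ex_blk [Finite K] (hE : ∀ k, Ex ({x | V x k} : Language (Fin 2))) (g : G) :
    Ex ({x | IsBlk V f x g} : Language (Fin 2)) := by
  classical
  have hfin : Fintype K := Fintype.ofFinite K
  let LV : K → Language (Fin 2) := fun k => {x | V x k}
  have h1 := Ex.biUnion (Finset.univ.filter (fun k => f k = g))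
    (fun k => ({[0]} : Language (Fin 2)) * LV k * ({[1]} : Language (Fin 2)))
    (fun k _ => ((Ex.char 0).mul (hE k)).mul (Ex.char 1))
  convert h1 using 1
  ext x
  constructor
  · rintro ⟨u, k, h1, h2, h3⟩
    refine ⟨k, ?_, ?_⟩
    · simp [h3]
    · rw [Language.mem_mul]
      refine ⟨[0] ++ u, ?_, [1], rfl, h2.symm⟩
      rw [Language.mem_mul]
      exact ⟨[0], rfl, u, h1, rfl⟩
  · rintro ⟨k, hk, hx⟩
    rw [Language.mem_mul] at hx
    obtain ⟨y, hy, z, hz, rfl⟩ := hx
    rw [Language.mem_mul] at hy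
    obtain ⟨y1, hy1, y2, hy2, rfl⟩ := hy
    have e1 : y1 = [0] := hy1
    have e2 : z = [1] := hz
    subst e1 e2
    refine ⟨y2, k, hy2, rfl, ?_⟩
    have := (Finset.mem_filter.1 hk).2
    exact this.symm

theorem gen_surj (hf : Function.Surjective f) (hs : ∀ k, ∃ x, V x k) (g : G) :
    ∃ x, Gen (IsBlk V f) x g := by
  obtain ⟨k, rfl⟩ := hf g
  obtain ⟨u, hu⟩ := hs k
  exact ⟨_, Gen.base ⟨u, k, hu, rfl, rfl⟩⟩

/-! ### the levels -/

/-- the bottom: only the empty word -/
def Vm : List (Fin 2) → Unit → Prop := fun w _ => w = []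

/-- powers of `01`, with the exponent modulo `m` as value -/
def V0 (m : ℕ) : List (Fin 2) → Multiplicative (ZMod m) → Prop :=
  Gen (IsBlk Vm (fun _ => Multiplicative.ofAdd 1))

/-- the levels above -/
def Wn {m : ℕ} (f : Multiplicative (ZMod m) → G) : ℕ → List (Fin 2) → G → Prop
  | 0 => Gen (IsBlk (V0 m) f)
  | n + 1 => Gen (IsBlk (Wn f n) (fun g => g⁻¹))

theorem vm_good : Good Vm := by
  refine ⟨?_, ?_, fun _ _ _ _ _ => rfl⟩
  · rintro w k rfl
    rfl
  · rintro w k rfl p s e
    rw [(List.append_eq_nil_iff.1 e.symm).1]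
    simp [wt]

theorem v0_good (m : ℕ) : Good (V0 m) := gen_good vm_good

theorem wn_good {m : ℕ} (f : Multiplicative (ZMod m) → G) (n : ℕ) : Good (Wn f n) := by
  induction n with
  | zero => exact gen_good (v0_good m)
  | succ n ih => exact gen_good ih

theorem vm_ex (k : Unit) : Ex ({x | Vm x k} : Language (Fin 2)) := by
  have : ({x | Vm x k} : Language (Fin 2)) = (1 : Language (Fin 2)) := by
    ext x
    exact (Language.mem_one x).symm
  rw [this]
  exact Ex.one

theorem v0_ex (m : ℕ) [NeZero m] (k : Multiplicative (ZMod m)) :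
    Ex ({x | V0 m x k} : Language (Fin 2)) :=
  (blk_code vm_good).ex_gen (ex_blk vm_ex) k

theorem wn_ex {m : ℕ} [NeZero m] [Finite G] (f : Multiplicative (ZMod m) → G) (n : ℕ) (g : G) :
    Ex ({x | Wn f n x g} : Language (Fin 2)) := by
  induction n generalizing g with
  | zero => exact (blk_code (v0_good m)).ex_gen (ex_blk (v0_ex m)) g
  | succ n ih => exact (blk_code (wn_good f n)).ex_gen (ex_blk ih) g

theorem v0_surj (m : ℕ) [NeZero m] (k : Multiplicative (ZMod m)) : ∃ x, V0 m x k := by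
  have h1 : V0 m [0, 1] (Multiplicative.ofAdd 1) := Gen.base ⟨[], (), rfl, rfl, rfl⟩
  have h2 := val_pw (V0 m) (fun h h' => Gen.append h h') Gen.nil h1 (Multiplicative.toAdd k).val
  refine ⟨pw [0, 1] (Multiplicative.toAdd k).val, ?_⟩
  convert h2 using 1
  rw [← ofAdd_nsmul, nsmul_eq_mul, mul_one, ZMod.natCast_zmod_val]
  rfl

theorem wn_surj {m : ℕ} [NeZero m] {f : Multiplicative (ZMod m) → G}
    (hf : Function.Surjective f) (n : ℕ) (g : G) : ∃ x, Wn f n x g := by
  induction n generalizing g with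
  | zero => exact gen_surj hf (v0_surj m) g
  | succ n ih => exact gen_surj inv_surjective ih g

theorem tp_v0 (m : ℕ) [NeZero m] : TP 0 (V0 m) := by
  intro E hE _
  obtain ⟨N, hN⟩ := apr_of_stars E
  refine reduce (GRE.rFin E) (V0 m) (fun h h' => Gen.append h h') {w | ∃ g, V0 m w g} ?_ ?_ ?_
    (N := N) ?_
  · rintro x ⟨g, hg⟩ y ⟨g', hg'⟩
    exact ⟨_, Gen.append hg hg'⟩
  · intro x hx
    exact hx
  · intro g
    obtain ⟨x, hx⟩ := v0_surj m g
    exact ⟨x, ⟨g, hx⟩, hx⟩
  · intro x _
    apply hN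
    intro F hF
    rw [stars_zero hE] at hF
    exact absurd hF (by simp)

theorem tp_wn {m : ℕ} [NeZero m] [Finite G] [IsSimpleGroup G]
    {f : Multiplicative (ZMod m) → G} (hf : Function.Surjective f) {p q : G}
    (hpq : p * q ≠ q * p) (n : ℕ) : TP (n + 1) (Wn f n) := by
  induction n with
  | zero =>
    refine tp_step (V0 m) (Wn f 0) f [0] [1] (fun h h' => Gen.append h h')
      (fun h h' => Gen.append h h') Gen.nil (wn_surj hf 0) ?_ hpq ?_ (tp_v0 m)
    · intro W k h
      exact Gen.base ⟨W, k, h, rfl, rfl⟩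
    · intro h
      apply hpq
      have h1 : ∀ y u, f (y * u) = f y * ((f 1)⁻¹ * f u) := by
        intro y u
        rw [h y u, mul_inv_cancel_left]
      have h2 : ∀ a b : G, a * ((f 1)⁻¹ * b) = b * ((f 1)⁻¹ * a) := by
        intro a b
        obtain ⟨y, rfl⟩ := hf a
        obtain ⟨u, rfl⟩ := hf b
        rw [← h1, ← h1, mul_comm]
      have h3 : ∀ a : G, a * (f 1)⁻¹ = (f 1)⁻¹ * a := by
        intro a
        have := h2 a 1
        simpa using this
      have h4 := h2 p q
      rw [← mul_assoc, ← mul_assoc, h3 p, h3 q, mul_assoc, mul_assoc] at h4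
      exact mul_left_cancel h4
  | succ n ih =>
    refine tp_step (Wn f n) (Wn f (n + 1)) (fun g => g⁻¹) [0] [1]
      ?_ (fun h h' => Gen.append h h') Gen.nil (wn_surj hf (n + 1)) ?_ hpq ?_ ih
    · intro u v g h h1 h2
      cases n with
      | zero => exact Gen.append h1 h2
      | succ n => exact Gen.append h1 h2
    · intro W k h
      exact Gen.base ⟨W, k, h, rfl, rfl⟩
    · intro h
      apply hpq
      have h1 := h q p⁻¹
      simp only [inv_one, one_mul, inv_inv, mul_inv_rev] at h1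
      -- p = q * (p * q⁻¹)
      rw [← mul_assoc] at h1
      exact (eq_mul_inv_iff_mul_eq.1 h1)

/-- The languages of the hierarchy theorem. -/
theorem hierarchy {m : ℕ} [NeZero m] [Finite G] [IsSimpleGroup G]
    {f : Multiplicative (ZMod m) → G} (hf : Function.Surjective f) {p q : G}
    (hpq : p * q ≠ q * p) (n : ℕ) :
    Ex ({x | Wn f n x 1} : Language (Fin 2)) ∧
      ¬ ∃ E : GRE (Fin 2), BifixStars E ∧ E.height ≤ n + 1 ∧
        E.lang = ({x | Wn f n x 1} : Language (Fin 2)) := by
  refine ⟨wn_ex f n 1, ?_⟩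
  rintro ⟨E, hE, hh, hL⟩
  obtain ⟨W, _, _, hWs, hWE⟩ := tp_wn hf hpq n E hh hE
  obtain ⟨x, hx, hx1⟩ := hWs 1
  obtain ⟨g, hg⟩ := exists_ne (1 : G)
  obtain ⟨y, hy, hyg⟩ := hWs g
  have h1 := hWE x hx y hy [] []
  simp only [List.nil_append, List.append_nil] at h1
  rw [hL] at h1
  have h2 : Wn f n y 1 := h1.1 hx1
  exact hg ((wn_good f n).fn _ _ _ hyg h2)

end Pool.Agent.H643R2.BX
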